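import Pool.Agent.TH646.RT.WinMain
import Pool.Agent.TH562.R2.Tw

set_option autoImplicit false

open Finset Filter

namespace Pool.Agent.TH646.RT.Win

open Pool.Agent.TH562.R2 (qf GoodS FZ ex_bound)
open Pool.Agent.TH562.R2.Tw (twist RankAtLeastTwo crv_eq twist_swap)

open Classical in
theorem main1 {e1 e2 e3 : ℤ} (h12 : e1 ≠ e2) (h13 : e1 ≠ e3) (h23 : e2 ≠ e3)
    {h g : ℕ} (hh : Squarefree h)
    (hhg : h * g ^ 2 = ((e1 - e2) * (e2 - e3) * (e3 - e1) *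
      ((e1 - e2) ^ 2 + (e1 - e2) * (e2 - e3) + (e2 - e3) ^ 2)).natAbs)
    {M : ℕ} (hM : 0 < M) {θ : ℝ} (hθ : 11 / 12 < θ) (hθ1 : θ ≤ 1) :
    ∃ R : ℕ, 0 < R ∧ ∃ X₀ : ℝ, ∀ X : ℝ, X₀ ≤ X → X ^ (θ - 2 / 3) / Real.log X ^ 13 ≤
      (((SW h R X (X ^ θ) (fun d => Squarefree (h * d) ∧ d ≡ 1 [MOD M] ∧
        RankAtLeastTwo (twist e1 e2 e3
          (((e1 - e2) * (e2 - e3) * (e3 - e1)).sign * (h * d : ℕ))))).ncard : ℕ) : ℝ) := by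
  set α : ℤ := e1 - e2 with hα
  set β : ℤ := e2 - e3 with hβ
  set γ : ℤ := e3 - e1 with hγ
  have hα0 : α ≠ 0 := sub_ne_zero.2 h12
  have hβ0 : β ≠ 0 := sub_ne_zero.2 h23
  have hγ0 : γ ≠ 0 := sub_ne_zero.2 h13.symm
  have hsum : γ = -α - β := by rw [hα, hβ, hγ]; ring
  set q : ℤ := α ^ 2 + α * β + β ^ 2 with hq
  have hqpos : 0 < q := by
    have h1 : 0 < α ^ 2 := by positivity
    have h2 : 0 ≤ (α + 2 * β) ^ 2 := sq_nonneg _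
    nlinarith
  set n : ℤ := α * β * γ with hn
  have hn0 : n ≠ 0 := mul_ne_zero (mul_ne_zero hα0 hβ0) hγ0
  have hnq0 : n * q ≠ 0 := mul_ne_zero hn0 hqpos.ne'
  -- signed squarefree part
  set hs : ℤ := n.sign * h with hhs
  have hg0 : g ≠ 0 := by
    rintro rfl
    rw [zero_pow two_ne_zero, mul_zero] at hhg
    exact hnq0 (Int.natAbs_eq_zero.1 hhg.symm)
  have hh0 : h ≠ 0 := by
    rintro rfl
    rw [zero_mul] at hhg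
    exact hnq0 (Int.natAbs_eq_zero.1 hhg.symm)
  have hhpos : 1 ≤ h := Nat.pos_of_ne_zero hh0
  have hsignne : n.sign ≠ 0 := by
    rw [Ne, Int.sign_eq_zero_iff_zero]; exact hn0
  have hs0 : hs ≠ 0 := mul_ne_zero hsignne (by exact_mod_cast hh0)
  have hsabs : (h : ℤ) = |hs| := by
    rw [hhs, abs_mul, Int.abs_sign_of_ne_zero hn0, one_mul, Nat.abs_cast]
  have hssign : hs.sign = n.sign := by
    rw [hhs, Int.sign_mul, Int.sign_natCast_of_ne_zero hh0, mul_one, Int.sign_sign]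
  have hhsg : hs * (g : ℤ) ^ 2 = n * q := by
    have h1 : ((h * g ^ 2 : ℕ) : ℤ) = |n * q| := by
      rw [hhg]; exact Int.natCast_natAbs _
    push_cast at h1
    rw [hhs, mul_assoc, h1, abs_mul, abs_of_pos hqpos, ← mul_assoc, Int.sign_mul_abs]
  -- the coefficients
  obtain ⟨a, ha⟩ : ∃ a : ℤ, a = α ^ 2 * β * γ ^ 3 := ⟨_, rfl⟩
  obtain ⟨b, hb⟩ : ∃ b : ℤ, b = α ^ 3 * β ^ 2 * γ := ⟨_, rfl⟩
  obtain ⟨c, hc⟩ : ∃ c : ℤ, c = α * β ^ 3 * γ ^ 2 := ⟨_, rfl⟩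
  have ha0 : a ≠ 0 := by rw [ha]; positivity
  have hb0 : b ≠ 0 := by rw [hb]; positivity
  have hc0 : c ≠ 0 := by rw [hc]; positivity
  have hab : a - b = α * (n * q) := by rw [ha, hb, hn, hq, hsum]; ring
  have hbc : b - c = β * (n * q) := by rw [hb, hc, hn, hq, hsum]; ring
  have hca : c - a = γ * (n * q) := by rw [ha, hc, hn, hq, hsum]; ring
  have hab0 : a - b ≠ 0 := by rw [hab]; exact mul_ne_zero hα0 hnq0
  have hbc0 : b - c ≠ 0 := by rw [hbc]; exact mul_ne_zero hβ0 hnq0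
  have hca0 : c - a ≠ 0 := by rw [hca]; exact mul_ne_zero hγ0 hnq0
  obtain ⟨Z, z1, z2, z3, z4, _, _, _⟩ := ex_bound (hs * α * β * γ).natAbs (a - b).natAbs
    (b - c).natAbs (c - a).natAbs 0 0
  obtain ⟨W, Q, hZW, hMQ, hQW', R, hR, X₀, hmain⟩ := coreW hhpos ha0 hb0 hc0
    (sub_ne_zero.1 hab0) Z hM hθ hθ1
  have hbig : ∀ {z : ℤ} {p : ℕ}, z ≠ 0 → z.natAbs ≤ Z → W < p → ¬ (p : ℤ) ∣ z := by
    intro z p hz hzW hpW hd
    have h1 : p ∣ z.natAbs := Int.natCast_dvd.1 hd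
    have h2 := Nat.le_of_dvd (Int.natAbs_pos.2 hz) h1
    exact absurd (lt_of_lt_of_le hpW (h2.trans (hzW.trans hZW))) (lt_irrefl _)
  have hWhs : ∀ p : ℕ, p.Prime → W < p → ¬ (p : ℤ) ∣ hs * α * β * γ ∧
      ¬ (p : ℤ) ∣ a - b ∧ ¬ (p : ℤ) ∣ b - c ∧ ¬ (p : ℤ) ∣ c - a := by
    intro p _ hpW
    exact ⟨hbig (mul_ne_zero (mul_ne_zero (mul_ne_zero hs0 hα0) hβ0) hγ0) z1 hpW,
      hbig hab0 z2 hpW, hbig hbc0 z3 hpW, hbig hca0 z4 hpW⟩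
  have hkey := hmain (fun d : ℕ => Squarefree (h * d) ∧ d ≡ 1 [MOD M] ∧
    RankAtLeastTwo (twist e1 e2 e3 (n.sign * (h * d : ℕ))))
    (fun d hd => (hd.1 : Squarefree (h * d)).of_mul_right) (by
      intro i j hj0 hgood hA hB hC
      obtain ⟨d, hd1, hd2, hd3, hd4⟩ := Pool.Agent.TH562.R2.arith (hs := hs) (g := (g : ℤ))
        h12 h13 h23 (by exact_mod_cast hg0) hs0 hhsg ha hb hc hh hsabs (Q := Q) (W := W) (M := M)
        hMQ hQW' hWhs hj0 hgood hA hB hC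
      rw [hssign] at hd4
      refine ⟨d, hd1, hd2, hd3, ?_⟩
      have h5 : RankAtLeastTwo (Pool.Agent.H918R3.crv _ _ _) := hd4
      rw [crv_eq] at h5
      exact h5)
  exact ⟨R, hR, X₀, hkey⟩

open Classical in
theorem main2 {e₁ e₂ e₃ : ℤ} (h12 : e₁ ≠ e₂) (h13 : e₁ ≠ e₃) (h23 : e₂ ≠ e₃)
    {h g : ℕ} (hh : Squarefree h)
    (hhg : h * g ^ 2 = ((e₁ - e₂) * (e₂ - e₃) * (e₃ - e₁) *
      ((e₁ - e₂) ^ 2 + (e₁ - e₂) * (e₂ - e₃) + (e₂ - e₃) ^ 2)).natAbs)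
    {M : ℕ} (hM : 0 < M) {ε : ℤ} (hε : ε = 1 ∨ ε = -1) {θ : ℝ} (hθ : 11 / 12 < θ)
    (hθ1 : θ ≤ 1) :
    ∃ R : ℕ, 0 < R ∧ ∃ X₀ : ℝ, ∀ X : ℝ, X₀ ≤ X → X ^ (θ - 2 / 3) / Real.log X ^ 13 ≤
      (((SW h R X (X ^ θ) (fun d => Squarefree (h * d) ∧ d ≡ 1 [MOD M] ∧
        RankAtLeastTwo (twist e₁ e₂ e₃ (ε * (h * d : ℕ))))).ncard : ℕ) : ℝ) := by
  have hn : (e₁ - e₂) * (e₂ - e₃) * (e₃ - e₁) ≠ 0 :=
    mul_ne_zero (mul_ne_zero (sub_ne_zero.2 h12) (sub_ne_zero.2 h23)) (sub_ne_zero.2 h13.symm)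
  have hsg : ((e₁ - e₂) * (e₂ - e₃) * (e₃ - e₁)).sign = ε ∨
      ((e₂ - e₁) * (e₁ - e₃) * (e₃ - e₂)).sign = ε := by
    have h1 : (e₂ - e₁) * (e₁ - e₃) * (e₃ - e₂) = -((e₁ - e₂) * (e₂ - e₃) * (e₃ - e₁)) := by ring
    rw [h1, Int.sign_neg]
    rcases lt_or_gt_of_ne hn with h | h
    · rw [Int.sign_eq_neg_one_of_neg h]
      rcases hε with rfl | rfl
      · exact Or.inr rfl
      · exact Or.inl rfl
    · rw [Int.sign_eq_one_of_pos h]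
      rcases hε with rfl | rfl
      · exact Or.inl rfl
      · exact Or.inr rfl
  rcases hsg with hsg | hsg
  · obtain ⟨R, hR, N₀, hN⟩ := main1 h12 h13 h23 hh hhg hM hθ hθ1
    refine ⟨R, hR, N₀, fun N hNN => ?_⟩
    have h1 := hN N hNN
    rw [hsg] at h1
    exact h1
  · have hhg' : h * g ^ 2 = ((e₂ - e₁) * (e₁ - e₃) * (e₃ - e₂) *
        ((e₂ - e₁) ^ 2 + (e₂ - e₁) * (e₁ - e₃) + (e₁ - e₃) ^ 2)).natAbs := by
      rw [hhg, ← Int.natAbs_neg]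
      congr 1
      ring
    obtain ⟨R, hR, N₀, hN⟩ := main1 h12.symm h23 h13 hh hhg' hM hθ hθ1
    refine ⟨R, hR, N₀, fun N hNN => ?_⟩
    have h1 := hN N hNN
    rw [hsg] at h1
    simp only [twist_swap] at h1
    exact h1

end Pool.Agent.TH646.RT.Win
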