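import Pool.Agent.TH646.AT.Bad
import Pool.Agent.TH646.AT.Sieve
import Pool.Agent.TH562.R2.Sv

set_option autoImplicit false

open Finset

namespace Pool.Agent.TH646.RT

open Pool.Agent.TH562.R2 (qf GoodS)
open Pool.Agent.TH562.TW (card_spaced)
open Pool.Agent.TH646.AT (sieve_gen mult_count sum_inv_sq)
open Pool.Agent.H410R2.ED (Pr)
open Pool.Agent.H661R3.OP.SVA (prime_of_mem_Pr)

/-- colouring by two classes -/
theorem color2 {ι : Type*} {p : ℕ} (hp : p.Prime) {e : ℤ} (h2 : ¬ (p : ℤ) ∣ 2 * e)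
    (T : Finset ι) (u v : ι → ℕ)
    (h : ∀ x ∈ T, ((p ^ 2 : ℕ) : ℤ) ∣ qf e (u x) (v x) ∧ ¬ p ∣ v x) {b : ℝ} (hb0 : 0 ≤ b)
    (hb : ∀ T' ⊆ T, (∀ x ∈ T', ∀ y ∈ T', ((p ^ 2 : ℕ) : ℤ) ∣ (u x : ℤ) * v y - u y * v x) →
      (T'.card : ℝ) ≤ b) : (T.card : ℝ) ≤ 3 * b := by
  classical
  have hpZ : Prime (p : ℤ) := Nat.prime_iff_prime_int.1 hp
  rcases T.eq_empty_or_nonempty with h0 | ⟨x0, hx0⟩
  · rw [h0, card_empty]; push_cast; linarith
  obtain ⟨a1, a2⟩ := h x0 hx0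
  have canc : ∀ {z : ℤ}, ((p ^ 2 : ℕ) : ℤ) ∣ z * v x0 → ((p ^ 2 : ℕ) : ℤ) ∣ z := by
    intro z hz
    have hcop : IsCoprime (((p ^ 2 : ℕ) : ℤ)) (v x0 : ℤ) := by
      push_cast
      apply IsCoprime.pow_left
      exact (Prime.coprime_iff_not_dvd hpZ).2 (by intro h; exact a2 (by exact_mod_cast h))
    exact hcop.dvd_of_dvd_mul_right hz
  have key : ∀ x ∈ T, ((p ^ 2 : ℕ) : ℤ) ∣ (u x : ℤ) * v x0 - u x0 * v x ∨
      ((p ^ 2 : ℕ) : ℤ) ∣ (u x : ℤ) * v x0 + u x0 * v x := by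
    intro x hx
    obtain ⟨b1, b2⟩ := h x hx
    have h1 : ((p ^ 2 : ℕ) : ℤ) ∣
        ((u x : ℤ) * v x0 - u x0 * v x) * ((u x : ℤ) * v x0 + u x0 * v x) := by
      have e1 : ((u x : ℤ) * v x0 - u x0 * v x) * ((u x : ℤ) * v x0 + u x0 * v x) =
        qf e (u x) (v x) * (v x0 : ℤ) ^ 2 - qf e (u x0) (v x0) * (v x : ℤ) ^ 2 := by
        unfold qf; ring
      rw [e1]
      exact dvd_sub (b1.mul_right _) (a1.mul_right _)
    by_cases hd : (p : ℤ) ∣ (u x : ℤ) * v x0 - u x0 * v x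
    · left
      have hd2 : ¬ (p : ℤ) ∣ (u x : ℤ) * v x0 + u x0 * v x := by
        intro h3
        have h4 : (p : ℤ) ∣ 2 * ((u x : ℤ) * v x0) := by
          have := dvd_add hd h3
          rwa [show (u x : ℤ) * v x0 - u x0 * v x + ((u x : ℤ) * v x0 + u x0 * v x) =
            2 * ((u x : ℤ) * v x0) by ring] at this
        have n2 : ¬ (p : ℤ) ∣ 2 := fun h => h2 (h.mul_right _)
        have ne : ¬ (p : ℤ) ∣ e := fun h => h2 (h.mul_left _)
        have nv0 : ¬ (p : ℤ) ∣ (v x0 : ℤ) := by intro h; exact a2 (by exact_mod_cast h)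
        have nv : ¬ (p : ℤ) ∣ (v x : ℤ) := by intro h; exact b2 (by exact_mod_cast h)
        have nu : ¬ (p : ℤ) ∣ (u x : ℤ) := by
          intro h5
          have hp1 : (p : ℤ) ∣ ((p ^ 2 : ℕ) : ℤ) := by
            push_cast; exact dvd_pow_self _ two_ne_zero
          have h6 : (p : ℤ) ∣ e * (v x : ℤ) ^ 2 := by
            have h7 := dvd_sub (h5.trans (dvd_pow_self _ two_ne_zero) : (p : ℤ) ∣ (u x : ℤ) ^ 2)
              (hp1.trans b1)
            unfold qf at h7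
            rwa [sub_sub_cancel] at h7
          rcases hpZ.dvd_or_dvd h6 with h7 | h7
          · exact ne h7
          · exact nv (hpZ.dvd_of_dvd_pow h7)
        rcases hpZ.dvd_or_dvd h4 with h5 | h5
        · exact n2 h5
        · rcases hpZ.dvd_or_dvd h5 with h6 | h6
          · exact nu h6
          · exact nv0 h6
      have hcop : IsCoprime (((p ^ 2 : ℕ) : ℤ)) ((u x : ℤ) * v x0 + u x0 * v x) := by
        push_cast
        exact IsCoprime.pow_left ((Prime.coprime_iff_not_dvd hpZ).2 hd2)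
      exact hcop.dvd_of_dvd_mul_right h1
    · right
      have hcop : IsCoprime (((p ^ 2 : ℕ) : ℤ)) ((u x : ℤ) * v x0 - u x0 * v x) := by
        push_cast
        exact IsCoprime.pow_left ((Prime.coprime_iff_not_dvd hpZ).2 hd)
      exact hcop.dvd_of_dvd_mul_left h1
  have c1 := hb (T.filter fun x => ((p ^ 2 : ℕ) : ℤ) ∣ (u x : ℤ) * v x0 - u x0 * v x)
    (filter_subset _ _) (by
    intro x hx y hy
    have hx2 := (mem_filter.1 hx).2
    have hy2 := (mem_filter.1 hy).2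
    apply canc
    have e1 : ((u x : ℤ) * v y - u y * v x) * v x0 = ((u x : ℤ) * v x0 - u x0 * v x) * v y -
      ((u y : ℤ) * v x0 - u x0 * v y) * v x := by ring
    rw [e1]
    exact dvd_sub (hx2.mul_right _) (hy2.mul_right _))
  have c2 := hb (T.filter fun x => ((p ^ 2 : ℕ) : ℤ) ∣ (u x : ℤ) * v x0 + u x0 * v x)
    (filter_subset _ _) (by
    intro x hx y hy
    have hx2 := (mem_filter.1 hx).2
    have hy2 := (mem_filter.1 hy).2
    apply canc
    have e1 : ((u x : ℤ) * v y - u y * v x) * v x0 = ((u x : ℤ) * v x0 + u x0 * v x) * v y -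
      ((u y : ℤ) * v x0 + u x0 * v y) * v x := by ring
    rw [e1]
    exact dvd_sub (hx2.mul_right _) (hy2.mul_right _))
  have hsub : T ⊆ (T.filter fun x => ((p ^ 2 : ℕ) : ℤ) ∣ (u x : ℤ) * v x0 - u x0 * v x) ∪
      (T.filter fun x => ((p ^ 2 : ℕ) : ℤ) ∣ (u x : ℤ) * v x0 + u x0 * v x) := by
    intro x hx
    rcases key x hx with h | h
    · exact mem_union_left _ (mem_filter.2 ⟨hx, h⟩)
    · exact mem_union_right _ (mem_filter.2 ⟨hx, h⟩)
  have h3 : (T.card : ℝ) ≤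
      ((T.filter fun x => ((p ^ 2 : ℕ) : ℤ) ∣ (u x : ℤ) * v x0 - u x0 * v x).card : ℝ) +
      ((T.filter fun x => ((p ^ 2 : ℕ) : ℤ) ∣ (u x : ℤ) * v x0 + u x0 * v x).card : ℝ) := by
    exact_mod_cast (Finset.card_le_card hsub).trans (Finset.card_union_le _ _)
  linarith

open Classical in
/-- common factors -/
theorem bad1 {Q T Y j : ℕ} (hY : 1 ≤ Y) (hj : j ≠ 0)
    (hQp : ∀ p : ℕ, p.Prime → Y < p → ¬ p ∣ Q) :
    ((((Ico T (2 * T)).filter (fun i => ∃ p : ℕ, p.Prime ∧ Y < p ∧ p ∣ 1 + Q * i ∧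
      p ∣ j)).card : ℕ) : ℝ) ≤ j.primeFactors.card * (T / Y + 1) := by
  classical
  have hsub : (Ico T (2 * T)).filter (fun i => ∃ p : ℕ, p.Prime ∧ Y < p ∧ p ∣ 1 + Q * i ∧
      p ∣ j) ⊆ (j.primeFactors.filter (fun p => Y < p)).biUnion
        (fun p => (Ico T (2 * T)).filter (fun i => p ∣ 1 + Q * i)) := by
    intro u hu
    rw [mem_filter] at hu
    obtain ⟨hu1, p, hp, hYp, hpu, hpv⟩ := hu
    rw [mem_biUnion]
    exact ⟨p, mem_filter.2 ⟨Nat.mem_primeFactors.2 ⟨hp, hpv, hj⟩, hYp⟩, mem_filter.2 ⟨hu1, hpu⟩⟩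
  have h1 := (card_le_card hsub).trans card_biUnion_le
  refine (Nat.cast_le (α := ℝ).2 h1).trans ?_
  rw [Nat.cast_sum]
  have h0 : (0 : ℝ) ≤ T / Y + 1 := by positivity
  refine le_trans (sum_le_card_nsmul _ _ (T / Y + 1 : ℝ) ?_) ?_
  · intro p hp
    rw [mem_filter, Nat.mem_primeFactors] at hp
    obtain ⟨⟨hp, -, -⟩, hYp⟩ := hp
    have h3 := mult_count (F := (Ico T (2 * T)).filter (fun i => p ∣ 1 + Q * i)) (u₀ := T) (T := T)
      (m := p) hp.pos
      (fun u hu => by rw [mem_filter, mem_Ico] at hu; omega)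
      (fun u hu u' hu' => by
        rw [mem_filter] at hu hu'
        have h4 : (p : ℤ) ∣ ((1 + Q * u : ℕ) : ℤ) - ((1 + Q * u' : ℕ) : ℤ) :=
          dvd_sub (Int.natCast_dvd_natCast.2 hu.2) (Int.natCast_dvd_natCast.2 hu'.2)
        have h5 : (p : ℤ) ∣ (Q : ℤ) * ((u : ℤ) - u') := by
          have e : ((1 + Q * u : ℕ) : ℤ) - ((1 + Q * u' : ℕ) : ℤ) = (Q : ℤ) * ((u : ℤ) - u') := by
            push_cast; ring
          rwa [e] at h4
        rcases (Nat.prime_iff_prime_int.1 hp).dvd_or_dvd h5 with h6 | h6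
        · exact absurd (Int.natCast_dvd_natCast.1 h6) (hQp p hp hYp)
        · exact h6)
    refine h3.trans ?_
    have h4 : (Y : ℝ) ≤ p := by exact_mod_cast hYp.le
    have h5 : (T : ℝ) / p ≤ T / Y :=
      div_le_div_of_nonneg_left (Nat.cast_nonneg T) (by exact_mod_cast hY) h4
    linarith
  · rw [nsmul_eq_mul]
    apply mul_le_mul_of_nonneg_right _ h0
    exact_mod_cast card_filter_le _ _

theorem not_dvd_v {e : ℤ} {u v p : ℕ} (hp : p.Prime) (hc : Nat.Coprime u v)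
    (h : (p : ℤ) ∣ qf e u v) : ¬ p ∣ v := by
  intro hv
  have hpz : Prime (p : ℤ) := Nat.prime_iff_prime_int.1 hp
  have hvz : (p : ℤ) ∣ (v : ℤ) := by exact_mod_cast hv
  have h1 : (p : ℤ) ∣ (u : ℤ) ^ 2 := by
    have h2 : (p : ℤ) ∣ v * (e * v) := hvz.mul_right _
    have h3 := dvd_add h h2
    rwa [show qf e u v + v * (e * v) = (u : ℤ) ^ 2 by unfold qf; ring] at h3
  have h4 := hpz.dvd_of_dvd_pow h1
  have h5 : p ∣ u := by exact_mod_cast h4
  exact Nat.Prime.not_coprime_iff_dvd.2 ⟨p, hp, h5, hv⟩ hc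

open Classical in
/-- squares of medium primes, for a fixed `v` -/
theorem bad2 {e : ℤ} {Q T Y P₁ j : ℕ} (hY : 1 ≤ Y)
    (hQp : ∀ p : ℕ, p.Prime → Y < p → ¬ p ∣ Q)
    (hep : ∀ p : ℕ, p.Prime → Y < p → ¬ (p : ℤ) ∣ 2 * e) :
    ((((Ico T (2 * T)).filter (fun i => Nat.Coprime (1 + Q * i) (Q * j) ∧ ∃ p : ℕ, p.Prime ∧
      Y < p ∧ p ≤ P₁ ∧ ((p ^ 2 : ℕ) : ℤ) ∣ qf e (1 + Q * i) (Q * j))).card : ℕ) : ℝ) ≤
      3 * (T / Y + P₁) := by
  classical
  have hsub : (Ico T (2 * T)).filter (fun i => Nat.Coprime (1 + Q * i) (Q * j) ∧ ∃ p : ℕ,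
      p.Prime ∧ Y < p ∧ p ≤ P₁ ∧ ((p ^ 2 : ℕ) : ℤ) ∣ qf e (1 + Q * i) (Q * j)) ⊆
      ((Ioc Y P₁).filter Nat.Prime).biUnion (fun p => (Ico T (2 * T)).filter
        (fun i => Nat.Coprime (1 + Q * i) (Q * j) ∧
          ((p ^ 2 : ℕ) : ℤ) ∣ qf e (1 + Q * i) (Q * j))) := by
    intro u hu
    rw [mem_filter] at hu
    obtain ⟨hu1, hu2, p, hp, hYp, hpP, hdvd⟩ := hu
    rw [mem_biUnion]
    exact ⟨p, mem_filter.2 ⟨mem_Ioc.2 ⟨hYp, hpP⟩, hp⟩, mem_filter.2 ⟨hu1, hu2, hdvd⟩⟩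
  have h1 := (card_le_card hsub).trans card_biUnion_le
  refine (Nat.cast_le (α := ℝ).2 h1).trans ?_
  rw [Nat.cast_sum]
  refine le_trans (sum_le_sum ?_) (sum_inv_sq hY (T : ℝ) (Nat.cast_nonneg T))
  intro p hp
  rw [mem_filter, mem_Ioc] at hp
  obtain ⟨⟨hYp, -⟩, hp⟩ := hp
  have hpZ : Prime (p : ℤ) := Nat.prime_iff_prime_int.1 hp
  have hp1 : (p : ℤ) ∣ ((p ^ 2 : ℕ) : ℤ) := by
    push_cast
    exact dvd_pow_self _ two_ne_zero
  apply color2 hp (hep p hp hYp) _ (fun i => 1 + Q * i) (fun _ => Q * j)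
  · intro u hu
    rw [mem_filter] at hu
    exact ⟨hu.2.2, not_dvd_v hp hu.2.1 (hp1.trans hu.2.2)⟩
  · positivity
  · intro T' hT' hd
    have h3 := mult_count (F := T') (u₀ := T) (T := T) (m := p ^ 2) (pow_pos hp.pos 2)
      (fun u hu => by
        have := hT' hu
        rw [mem_filter, mem_Ico] at this
        omega)
      (fun u hu u' hu' => by
        have h4 := hd u hu u' hu'
        have h5 := hT' hu
        rw [mem_filter] at h5
        have hpv := not_dvd_v hp h5.2.1 (hp1.trans h5.2.2)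
        have cop : ∀ z : ℕ, ¬ p ∣ z → IsCoprime (((p ^ 2 : ℕ) : ℤ)) (z : ℤ) := by
          intro z hz
          push_cast
          apply IsCoprime.pow_left
          exact (Prime.coprime_iff_not_dvd hpZ).2 (by intro h; exact hz (by exact_mod_cast h))
        have e1 : ((1 + Q * u : ℕ) : ℤ) * ((Q * j : ℕ) : ℤ) - ((1 + Q * u' : ℕ) : ℤ) *
            ((Q * j : ℕ) : ℤ) = ((u : ℤ) - u') * (Q : ℤ) * ((Q * j : ℕ) : ℤ) := by
          push_cast; ring
        have h6 : ((p ^ 2 : ℕ) : ℤ) ∣ ((u : ℤ) - u') * (Q : ℤ) * ((Q * j : ℕ) : ℤ) := by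
          rw [← e1]; exact h4
        exact (cop Q (hQp p hp hYp)).dvd_of_dvd_mul_right
          ((cop _ hpv).dvd_of_dvd_mul_right h6))
    push_cast at h3 ⊢
    exact h3

/-- squares of large primes, all pairs together -/
theorem bad3 {e : ℤ} {U P₁ P₂ : ℕ} (hP : 1 ≤ P₁) (S : Finset (ℕ × ℕ))
    (hS : ∀ x ∈ S, 0 < x.2 ∧ x.2 ≤ x.1 ∧ x.1 ≤ U ∧ Nat.Coprime x.1 x.2 ∧ ∃ p : ℕ, p.Prime ∧
      P₁ < p ∧ p ≤ P₂ ∧ ((p ^ 2 : ℕ) : ℤ) ∣ qf e x.1 x.2)
    (hep : ∀ p : ℕ, p.Prime → P₁ < p → ¬ (p : ℤ) ∣ 2 * e) :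
    (S.card : ℝ) ≤ 3 * ((U : ℝ) ^ 2 / P₁ + P₂) := by
  classical
  have hsub : S ⊆ ((Ioc P₁ P₂).filter Nat.Prime).biUnion (fun p => S.filter
        (fun x => ((p ^ 2 : ℕ) : ℤ) ∣ qf e x.1 x.2)) := by
    intro x hx
    obtain ⟨-, -, -, -, p, hp, hYp, hpP, hdvd⟩ := hS x hx
    rw [mem_biUnion]
    exact ⟨p, mem_filter.2 ⟨mem_Ioc.2 ⟨hYp, hpP⟩, hp⟩, mem_filter.2 ⟨hx, hdvd⟩⟩
  have h1 := (card_le_card hsub).trans card_biUnion_le
  refine (Nat.cast_le (α := ℝ).2 h1).trans ?_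
  rw [Nat.cast_sum]
  refine le_trans (sum_le_sum ?_) (sum_inv_sq hP ((U : ℝ) ^ 2) (by positivity))
  intro p hp
  rw [mem_filter, mem_Ioc] at hp
  obtain ⟨⟨hYp, -⟩, hp⟩ := hp
  have hp1 : (p : ℤ) ∣ ((p ^ 2 : ℕ) : ℤ) := by
    push_cast
    exact dvd_pow_self _ two_ne_zero
  apply color2 hp (hep p hp hYp) _ (fun x => x.1) (fun x => x.2)
  · intro x hx
    rw [mem_filter] at hx
    exact ⟨hx.2, not_dvd_v hp (hS x hx.1).2.2.2.1 (hp1.trans hx.2)⟩
  · positivity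
  · intro T' hT' hd
    rcases T'.eq_empty_or_nonempty with h0 | ⟨y0, hy0⟩
    · rw [h0]; simp; positivity
    have hT'' : ∀ x ∈ T', 0 < x.2 ∧ x.2 ≤ x.1 ∧ x.1 ≤ U ∧ Nat.Coprime x.1 x.2 := by
      intro x hx
      have := hT' hx
      rw [mem_filter] at this
      obtain ⟨a1, a2, a3, a4, -⟩ := hS x this.1
      exact ⟨a1, a2, a3, a4⟩
    have hU : (0 : ℝ) < U := by
      have := hT'' y0 hy0
      exact_mod_cast (by omega : 0 < U)
    have hp2 : (0 : ℝ) < (p : ℝ) ^ 2 := by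
      have : (0 : ℝ) < p := by exact_mod_cast hp.pos
      positivity
    have h3 := card_spaced T' (fun x : ℕ × ℕ => (x.2 : ℝ) / x.1) (a := 0) (L := 1)
      (ε := (p : ℝ) ^ 2 / (U : ℝ) ^ 2) (by positivity) zero_le_one
      (fun x hx => by
        obtain ⟨a1, a2, a3, a4⟩ := hT'' x hx
        have hx1 : (0 : ℝ) < x.1 := by exact_mod_cast (by omega : 0 < x.1)
        refine ⟨by positivity, ?_⟩
        rw [zero_add, div_le_one hx1]
        exact_mod_cast a2)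
      (fun x hx y hy hne => by
        obtain ⟨a1, a2, a3, a4⟩ := hT'' x hx
        obtain ⟨b1, b2, b3, b4⟩ := hT'' y hy
        have hx1 : (0 : ℝ) < x.1 := by exact_mod_cast (by omega : 0 < x.1)
        have hy1 : (0 : ℝ) < y.1 := by exact_mod_cast (by omega : 0 < y.1)
        have h4 := hd x hx y hy
        have h5 : (x.1 : ℤ) * y.2 - y.1 * x.2 ≠ 0 := by
          intro h0
          have h6 : x.1 * y.2 = y.1 * x.2 := by
            have : (x.1 : ℤ) * y.2 = y.1 * x.2 := by linarith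
            exact_mod_cast this
          have h7 : x.2 ∣ y.2 := by
            have : x.2 ∣ x.1 * y.2 := by rw [h6]; exact dvd_mul_left _ _
            exact (a4.symm).dvd_of_dvd_mul_left this
          have h8 : y.2 ∣ x.2 := by
            have : y.2 ∣ y.1 * x.2 := by rw [← h6]; exact dvd_mul_left _ _
            exact (b4.symm).dvd_of_dvd_mul_left this
          have h9 : x.2 = y.2 := Nat.dvd_antisymm h7 h8
          have h10 : x.1 = y.1 := by
            rw [h9] at h6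
            exact Nat.eq_of_mul_eq_mul_right b1 h6
          exact hne (Prod.ext h10 h9)
        have h6 : ((p ^ 2 : ℕ) : ℤ) ≤ |(x.1 : ℤ) * y.2 - y.1 * x.2| :=
          Int.le_of_dvd (abs_pos.2 h5) ((dvd_abs _ _).2 h4)
        have h7 : (((p ^ 2 : ℕ) : ℤ) : ℝ) ≤ ((|(x.1 : ℤ) * y.2 - y.1 * x.2| : ℤ) : ℝ) := by
          exact_mod_cast h6
        push_cast at h7
        have h8 : (x.2 : ℝ) / x.1 - (y.2 : ℝ) / y.1 =
            -(((x.1 : ℝ) * y.2 - y.1 * x.2) / (x.1 * y.1)) := by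
          field_simp
          ring
        rw [h8, abs_neg, abs_div, abs_of_pos (by positivity : (0 : ℝ) < x.1 * y.1),
          div_le_div_iff₀ (by positivity) (by positivity)]
        have h9 : (x.1 : ℝ) * y.1 ≤ (U : ℝ) ^ 2 := by
          rw [sq]
          exact mul_le_mul (by exact_mod_cast a3) (by exact_mod_cast b3) hy1.le hU.le
        exact mul_le_mul h7 h9 (by positivity) (abs_nonneg _))
    refine h3.trans (le_of_eq ?_)
    rw [one_div_div]

theorem two {l : ℕ} (hl : l.Prime) (e : ℤ) (Q T j : ℕ) (hQ : ¬ l ∣ Q) :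
    ((range l).filter (fun n : ℕ => (l : ℤ) ∣ qf e (1 + Q * (T + n)) (Q * j))).card ≤ 2 := by
  classical
  have : Fact l.Prime := ⟨hl⟩
  have hQ0 : (Q : ZMod l) ≠ 0 := by
    intro h
    exact hQ ((ZMod.natCast_eq_zero_iff _ _).1 h)
  have h1 : ((range l).filter (fun n : ℕ => (l : ℤ) ∣ qf e (1 + Q * (T + n)) (Q * j))).card ≤
      (Polynomial.nthRoots 2 ((e : ZMod l) * (Q * j) ^ 2)).toFinset.card := by
    apply card_le_card_of_injOn (fun n : ℕ => (1 + Q * (T + n) : ZMod l))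
    · intro n hn
      rw [mem_coe, mem_filter] at hn
      rw [mem_coe, Multiset.mem_toFinset, Polynomial.mem_nthRoots (by norm_num)]
      have h2 : ((qf e (1 + Q * (T + n)) (Q * j) : ℤ) : ZMod l) = 0 :=
        (ZMod.intCast_zmod_eq_zero_iff_dvd _ _).2 hn.2
      unfold qf at h2
      push_cast at h2
      linear_combination h2
    · intro n hn n' hn' h
      rw [mem_coe, mem_filter, mem_range] at hn hn'
      have h3 : (Q : ZMod l) * n = Q * n' := by
        have h : (1 + Q * (T + n) : ZMod l) = 1 + Q * (T + n') := h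
        linear_combination h
      have h4 : (n : ZMod l) = n' := mul_left_cancel₀ hQ0 h3
      have h5 := (ZMod.natCast_eq_natCast_iff n n' l).1 h4
      exact Nat.ModEq.eq_of_lt_of_lt h5 hn.1 hn'.1
  exact h1.trans ((Multiset.toFinset_card_le _).trans (Polynomial.card_nthRoots _ _))

open Classical in
/-- the number of `i` for a fixed `j` -/
theorem sieve6 : ∃ c₀ : ℕ, ∃ c : ℝ, 0 < c ∧ ∀ (es : Finset ℤ) (Q Y J T j : ℕ), es.card ≤ 3 →
    (∀ p : ℕ, p.Prime → p ≤ 12 → p ∣ Q) → Y < 2 ^ 2 ^ J →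
    (T : ℝ) / 2 * (c / 2 ^ J) ^ 12 - ((2 : ℝ) ^ 2 ^ J) ^ (c₀ * 6) ≤
      (((Ico T (2 * T)).filter (fun i => ∀ p : ℕ, p.Prime → p ≤ Y → ∀ e ∈ es,
        ¬ (p : ℤ) ∣ qf e (1 + Q * i) (Q * j))).card : ℝ) := by
  classical
  obtain ⟨c₀, c, hc, hS⟩ := sieve_gen
  refine ⟨c₀, c, hc, ?_⟩
  intro es Q Y J T j hes hQ12 hJ
  set P : ℕ → ℕ → Prop := fun l n => ¬ l ∣ Q ∧
    ∃ e ∈ es, (l : ℤ) ∣ qf e (1 + Q * (T + n)) (Q * j) with hP
  have hshift : ∀ l ∈ Pr 6 J, ∀ n, P l (n + l) ↔ P l n := by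
    intro l _ n
    simp only [hP]
    refine and_congr_right fun _ => exists_congr fun e => and_congr_right fun _ => ?_
    have h1 : (l : ℤ) ∣ qf e (1 + Q * (T + (n + l))) (Q * j) -
        qf e (1 + Q * (T + n)) (Q * j) := by
      unfold qf
      refine ⟨Q * (2 * (1 + Q * (T + n)) + Q * l), by push_cast; ring⟩
    constructor
    · intro h
      have := dvd_sub h h1
      rwa [sub_sub_cancel] at this
    · intro h
      have := dvd_add h h1
      rwa [add_sub_cancel] at this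
  have h := hS 6 (by norm_num) P J hshift (by
    intro l hl
    by_cases hlQ : l ∣ Q
    · rw [filter_false_of_mem (fun n _ h => h.1 hlQ)]
      simp
    · have hsub : (range l).filter (P l) ⊆ es.biUnion (fun e =>
          (range l).filter (fun n : ℕ => (l : ℤ) ∣ qf e (1 + Q * (T + n)) (Q * j))) := by
        intro n hn
        rw [mem_filter] at hn
        obtain ⟨hn1, hn2, e, he, hd⟩ := hn
        rw [mem_biUnion]
        exact ⟨e, he, mem_filter.2 ⟨hn1, hd⟩⟩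
      refine ((card_le_card hsub).trans card_biUnion_le).trans ?_
      refine (sum_le_card_nsmul _ _ 2 fun e _ => two (prime_of_mem_Pr hl) e Q T j hlQ).trans ?_
      rw [smul_eq_mul]
      omega) T
  refine h.trans ?_
  rw [Nat.cast_le, ← card_image_of_injective (f := fun n : ℕ => T + n) _ (by
    intro a b hab
    have : T + a = T + b := hab
    omega)]
  apply card_le_card
  intro i hi
  rw [mem_image] at hi
  obtain ⟨n, hn, rfl⟩ := hi
  rw [mem_filter, mem_range] at hn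
  obtain ⟨hn1, hn2⟩ := hn
  rw [mem_filter, mem_Ico]
  refine ⟨by omega, ?_⟩
  intro p hp hpY e he hdvd
  by_cases hpQ : p ∣ Q
  · have hpQ' : (p : ℤ) ∣ Q := by exact_mod_cast hpQ
    have h2 : (p : ℤ) ∣ qf e (1 + Q * (T + n)) (Q * j) - 1 := by
      have : qf e (1 + Q * (T + n)) (Q * j) - 1 =
          Q * ((T + n) * (2 + Q * (T + n)) - e * Q * j ^ 2) := by
        unfold qf; push_cast; ring
      rw [this]
      exact hpQ'.mul_right _
    have h3 := dvd_sub hdvd h2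
    rw [sub_sub_cancel] at h3
    exact (Nat.prime_iff_prime_int.1 hp).not_isUnit (isUnit_of_dvd_one h3)
  · have hmem : p ∈ Pr 6 J := by
      unfold Pr
      rw [mem_filter, mem_range]
      refine ⟨by omega, hp, ?_⟩
      by_contra hcon
      exact hpQ (hQ12 p hp (by omega))
    exact hn2 p hmem ⟨hpQ, e, he, hdvd⟩

end Pool.Agent.TH646.RT
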