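import Pool.Agent.TH646.RT.Base
import Pool.Agent.TH646.AT.Comb
import Pool.Agent.TH562.R2.Form

set_option autoImplicit false

open Finset

namespace Pool.Agent.TH646.RT

open Pool.Agent.TH562.R2 (qf GoodS FZ)
open Pool.Agent.TH646.AT (card_div)

theorem rows {s t : Finset ℕ} (p : ℕ × ℕ → Prop) [DecidablePred p] :
    (((s ×ˢ t).filter p).card) = ∑ j ∈ t, (s.filter (fun i => p (i, j))).card := by
  rw [card_filter, sum_product_right]
  refine sum_congr rfl fun j _ => ?_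
  rw [card_filter]

theorem rows_le {s t : Finset ℕ} (p : ℕ × ℕ → Prop) [DecidablePred p] {β : ℝ}
    (h : ∀ j ∈ t, ((s.filter (fun i => p (i, j))).card : ℝ) ≤ β) :
    (((s ×ˢ t).filter p).card : ℝ) ≤ t.card * β := by
  rw [rows, Nat.cast_sum, ← nsmul_eq_mul]
  exact sum_le_card_nsmul _ _ _ h

theorem le_rows {s t : Finset ℕ} (p : ℕ × ℕ → Prop) [DecidablePred p] {β : ℝ}
    (h : ∀ j ∈ t, β ≤ ((s.filter (fun i => p (i, j))).card : ℝ)) :
    t.card * β ≤ (((s ×ˢ t).filter p).card : ℝ) := by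
  rw [rows, Nat.cast_sum, ← nsmul_eq_mul]
  exact card_nsmul_le_sum _ _ _ h

/-- the size of the forms -/
theorem qf_size {e K : ℤ} {u v : ℕ} (hK : 1 ≤ K) (he : |e| ≤ K) (huv : 2 * K * v ≤ u)
    (hu : 2 ≤ u) : 1 < qf e u v ∧ qf e u v ≤ 2 * (u : ℤ) ^ 2 := by
  have hu' : (2 : ℤ) ≤ u := by exact_mod_cast hu
  have hv0 : (0 : ℤ) ≤ v := by positivity
  have h1 : |e * (v : ℤ) ^ 2| * 4 ≤ (u : ℤ) ^ 2 := by
    rw [abs_mul, abs_of_nonneg (by positivity : (0 : ℤ) ≤ (v : ℤ) ^ 2)]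
    have h2 : (2 * K * v) ^ 2 ≤ (u : ℤ) ^ 2 := pow_le_pow_left₀ (by positivity) huv 2
    have h3 : |e| * (v : ℤ) ^ 2 ≤ K * (v : ℤ) ^ 2 := mul_le_mul_of_nonneg_right he (by positivity)
    have h4 : K * (v : ℤ) ^ 2 ≤ K * (K * (v : ℤ) ^ 2) :=
      le_mul_of_one_le_left (by positivity) hK
    nlinarith
  have h5 := abs_le.1 (le_refl |e * (v : ℤ) ^ 2|)
  unfold qf
  constructor
  · nlinarith [h5.2]
  · nlinarith [h5.1]

open Classical in
theorem comb {h : ℕ} (hh : 1 ≤ h) {a b c : ℤ} (hab : a ≠ b) {K : ℕ} (hK : 1 ≤ K)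
    (hbd : ∀ e ∈ ({a, b, c} : Finset ℤ), e ≠ 0 ∧ |e| ≤ K)
    {Q W Y T V P₁ N R w : ℕ} (PP : ℕ → Prop) (hPPs : ∀ d, PP d → Squarefree d)
    (hQ : 0 < Q) (hQY : Q ≤ Y) (hWY : W ≤ Y) (hKY : 2 * K ≤ Y) (hYP : Y ≤ P₁)
    (hKV : 2 * K * V ≤ T) (hT : 2 ≤ T)
    (hPP : ∀ i j : ℕ, 0 < Q * j → GoodS Q W {a, b, c} (i, j) → 1 < qf a (1 + Q * i) (Q * j) →
      1 < qf b (1 + Q * i) (Q * j) → 1 < qf c (1 + Q * i) (Q * j) →
      ∃ d : ℕ, ((h * d : ℕ) : ℤ) = FZ h a b c (1 + Q * i) (Q * j) ∧ PP d)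
    (hN : h * (8 * (2 * Q * T) ^ 6) ≤ N) {E : ℝ}
    (hE : ∀ j : ℕ, E ≤ (((Ico T (2 * T)).filter (fun i => ∀ p : ℕ, p.Prime → p ≤ Y →
      ∀ e ∈ ({a, b, c} : Finset ℤ), ¬ (p : ℤ) ∣ qf e (1 + Q * i) (Q * j))).card : ℝ))
    (hw : ∀ j : ℕ, 0 < j → j ≤ V → j.primeFactors.card ≤ w)
    (hω : ∀ d : ℕ, h * d ≤ N → Squarefree d → (∀ p : ℕ, p.Prime → p ∣ d → Y < p) →
      d.primeFactors.card ≤ R) :
    (V : ℝ) * E ≤ V * (w * (T / Y + 1)) + 3 * (V * (3 * (T / Y + P₁))) +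
      3 * (3 * (((2 * Q * T : ℕ) : ℝ) ^ 2 / P₁ + ((4 * Q * T : ℕ) : ℝ))) +
      ((2 ^ R * 2 ^ R : ℕ) : ℝ) * (((range (N + 1)).filter (fun d => h * d ≤ N ∧ PP d ∧
        ∀ p : ℕ, p.Prime → p ∣ d → Y < p)).card : ℝ) := by
  set es : Finset ℤ := {a, b, c} with hes
  set Bx := Ico T (2 * T) ×ˢ Icc 1 V with hBx
  set sv : ℕ × ℕ → Prop := fun x => ∀ p : ℕ, p.Prime → p ≤ Y → ∀ e ∈ es,
    ¬ (p : ℤ) ∣ qf e (1 + Q * x.1) (Q * x.2) with hsv
  set St : Finset ℕ := (range (N + 1)).filter (fun d => h * d ≤ N ∧ PP d ∧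
        ∀ p : ℕ, p.Prime → p ∣ d → Y < p) with hSt
  have hV : ((Icc 1 V).card : ℝ) = V := by rw [Nat.card_Icc]; simp
  have ha : a ∈ es := by rw [hes]; simp
  have hb : b ∈ es := by rw [hes]; simp
  have hc : c ∈ es := by rw [hes]; simp
  have hQp : ∀ p : ℕ, p.Prime → Y < p → ¬ p ∣ Q := by
    intro p _ hYp hd
    have := Nat.le_of_dvd hQ hd
    omega
  have hep : ∀ e ∈ es, ∀ p : ℕ, p.Prime → Y < p → ¬ (p : ℤ) ∣ 2 * e := by
    intro e he p _ hYp hd
    obtain ⟨h1, h2⟩ := hbd e he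
    have h3 := Int.le_of_dvd (abs_pos.2 (mul_ne_zero two_ne_zero h1)) ((dvd_abs _ _).2 hd)
    rw [abs_mul] at h3
    have h4 : |(2 : ℤ)| = 2 := rfl
    rw [h4] at h3
    omega
  -- size of the points of the box
  have hbox : ∀ x ∈ Bx, T ≤ x.1 ∧ x.1 < 2 * T ∧ 0 < x.2 ∧ x.2 ≤ V ∧ 0 < Q * x.2 ∧
      2 * K * (Q * x.2) ≤ 1 + Q * x.1 ∧ 1 + Q * x.1 ≤ 2 * Q * T := by
    intro x hx
    rw [hBx, mem_product, mem_Ico, mem_Icc] at hx
    obtain ⟨⟨h1, h2⟩, h3, h4⟩ := hx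
    refine ⟨h1, h2, h3, h4, Nat.mul_pos hQ h3, ?_, ?_⟩
    · calc 2 * K * (Q * x.2) = Q * (2 * K * x.2) := by ring
        _ ≤ Q * (2 * K * V) := Nat.mul_le_mul_left _ (Nat.mul_le_mul_left _ h4)
        _ ≤ Q * T := Nat.mul_le_mul_left _ hKV
        _ ≤ Q * x.1 := Nat.mul_le_mul_left _ h1
        _ ≤ 1 + Q * x.1 := by omega
    · have h5 : Q * (x.1 + 1) ≤ Q * (2 * T) := Nat.mul_le_mul_left _ h2
      have h6 : Q * (x.1 + 1) = Q * x.1 + Q := by ring
      have h7 : Q * (2 * T) = 2 * Q * T := by ring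
      omega
  have hsize : ∀ x ∈ Bx, ∀ e ∈ es, 1 < qf e (1 + Q * x.1) (Q * x.2) ∧
      qf e (1 + Q * x.1) (Q * x.2) ≤ 2 * ((1 + Q * x.1 : ℕ) : ℤ) ^ 2 := by
    intro x hx e he
    obtain ⟨h1, h2, h3, h4, h5, h6, h7⟩ := hbox x hx
    refine qf_size (K := (K : ℤ)) (by exact_mod_cast hK) (hbd e he).2 (by exact_mod_cast h6) ?_
    have : Q * 2 ≤ Q * x.1 := Nat.mul_le_mul_left _ (by omega)
    omega
  -- the sets
  set Sv := Bx.filter sv with hSv
  set G := Sv.filter (fun x => GoodS Q W es x) with hG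
  set B1 := Bx.filter (fun x => ∃ p : ℕ, p.Prime ∧ Y < p ∧ p ∣ 1 + Q * x.1 ∧ p ∣ x.2) with hB1
  set B2 : ℤ → Finset (ℕ × ℕ) := fun e => Bx.filter (fun x =>
    Nat.Coprime (1 + Q * x.1) (Q * x.2) ∧ ∃ p : ℕ, p.Prime ∧ Y < p ∧ p ≤ P₁ ∧
      ((p ^ 2 : ℕ) : ℤ) ∣ qf e (1 + Q * x.1) (Q * x.2)) with hB2
  set B3 : ℤ → Finset (ℕ × ℕ) := fun e => Bx.filter (fun x =>
    Nat.Coprime (1 + Q * x.1) (Q * x.2) ∧ ∃ p : ℕ, p.Prime ∧ P₁ < p ∧ p ≤ 4 * Q * T ∧
      ((p ^ 2 : ℕ) : ℤ) ∣ qf e (1 + Q * x.1) (Q * x.2)) with hB3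
  have hsub : Sv ⊆ G ∪ (B1 ∪ (es.biUnion B2 ∪ es.biUnion B3)) := by
    intro x hx
    obtain ⟨hx1, hx2⟩ := mem_filter.1 hx
    by_cases hg : GoodS Q W es x
    · exact mem_union_left _ (mem_filter.2 ⟨hx, hg⟩)
    refine mem_union_right _ ?_
    by_cases hcop : Nat.Coprime (1 + Q * x.1) (Q * x.2)
    · refine mem_union_right _ ?_
      unfold GoodS at hg
      push Not at hg
      obtain ⟨p, hp, hpW, e, he, hd⟩ := hg hcop
      have hp1 : (p : ℤ) ∣ ((p ^ 2 : ℕ) : ℤ) := by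
        push_cast
        exact dvd_pow_self _ two_ne_zero
      have hYp : Y < p := by
        by_contra hcon
        exact hx2 p hp (by omega) e he (hp1.trans hd)
      rcases le_or_gt p P₁ with hP | hP
      · refine mem_union_left _ (mem_biUnion.2 ⟨e, he, mem_filter.2 ⟨hx1, hcop, p, hp, hYp, hP, hd⟩⟩)
      · refine mem_union_right _ (mem_biUnion.2 ⟨e, he, mem_filter.2 ⟨hx1, hcop, p, hp, hP, ?_, hd⟩⟩)
        obtain ⟨s1, s2⟩ := hsize x hx1 e he
        obtain ⟨-, -, -, -, -, -, h7⟩ := hbox x hx1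
        have h8 := Int.le_of_dvd (by omega) hd
        have h9 : ((1 + Q * x.1 : ℕ) : ℤ) ^ 2 ≤ ((2 * Q * T : ℕ) : ℤ) ^ 2 := by
          have : ((1 + Q * x.1 : ℕ) : ℤ) ≤ ((2 * Q * T : ℕ) : ℤ) := by exact_mod_cast h7
          exact pow_le_pow_left₀ (by positivity) this 2
        have h10 : p ^ 2 ≤ (4 * Q * T) ^ 2 := by
          have h11 : ((p ^ 2 : ℕ) : ℤ) ≤ (((4 * Q * T) ^ 2 : ℕ) : ℤ) := by
            have h12 : (((4 * Q * T) ^ 2 : ℕ) : ℤ) = 4 * ((2 * Q * T : ℕ) : ℤ) ^ 2 := by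
              push_cast; ring
            rw [h12]
            have h13 : (0 : ℤ) ≤ ((2 * Q * T : ℕ) : ℤ) ^ 2 := by positivity
            linarith
          exact_mod_cast h11
        exact le_of_pow_le_pow_left₀ two_ne_zero (Nat.zero_le _) h10
    · refine mem_union_left _ (mem_filter.2 ⟨hx1, ?_⟩)
      obtain ⟨p, hp, hpu, hpv⟩ := Nat.Prime.not_coprime_iff_dvd.1 hcop
      have hpQ : ¬ p ∣ Q := by
        intro hpQ
        have h1 : p ∣ 1 := (Nat.dvd_add_left (hpQ.mul_right x.1)).1 hpu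
        exact hp.one_lt.ne' (Nat.dvd_one.1 h1)
      have hpj : p ∣ x.2 := by
        rcases hp.dvd_mul.1 hpv with h1 | h1
        · exact absurd h1 hpQ
        · exact h1
      refine ⟨p, hp, ?_, hpu, hpj⟩
      by_contra hcon
      apply hx2 p hp (by omega) a ha
      unfold qf
      have h1 : (p : ℤ) ∣ ((1 + Q * x.1 : ℕ) : ℤ) := Int.natCast_dvd_natCast.2 hpu
      have h2 : (p : ℤ) ∣ ((Q * x.2 : ℕ) : ℤ) := Int.natCast_dvd_natCast.2 hpv
      exact dvd_sub (h1.trans (dvd_pow_self _ two_ne_zero))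
        ((h2.trans (dvd_pow_self _ two_ne_zero)).mul_left _)
  -- bounds
  have hc0 : (V : ℝ) * E ≤ Sv.card := by
    rw [← hV]
    exact le_rows (s := Ico T (2 * T)) (t := Icc 1 V) sv (fun j _ => hE j)
  have hc1 : (B1.card : ℝ) ≤ V * (w * (T / Y + 1)) := by
    have h0 : (0 : ℝ) ≤ T / Y + 1 := by positivity
    have h1 := rows_le (s := Ico T (2 * T)) (t := Icc 1 V) (fun x : ℕ × ℕ => ∃ p : ℕ, p.Prime ∧
      Y < p ∧ p ∣ 1 + Q * x.1 ∧ p ∣ x.2) (β := w * ((T : ℝ) / Y + 1)) (by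
        intro j hj
        rw [mem_Icc] at hj
        refine (bad1 (by omega) (by omega) hQp).trans ?_
        exact mul_le_mul_of_nonneg_right (by exact_mod_cast hw j hj.1 hj.2) h0)
    rw [hV] at h1
    exact h1
  have hc2 : ∀ e ∈ es, ((B2 e).card : ℝ) ≤ V * (3 * (T / Y + P₁)) := by
    intro e he
    have h1 := rows_le (s := Ico T (2 * T)) (t := Icc 1 V) (fun x : ℕ × ℕ =>
      Nat.Coprime (1 + Q * x.1) (Q * x.2) ∧ ∃ p : ℕ, p.Prime ∧ Y < p ∧ p ≤ P₁ ∧
      ((p ^ 2 : ℕ) : ℤ) ∣ qf e (1 + Q * x.1) (Q * x.2)) (β := 3 * ((T : ℝ) / Y + P₁)) (by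
        intro j _
        exact bad2 (by omega) hQp (hep e he))
    rw [hV] at h1
    exact h1
  have hinj : ∀ x y : ℕ × ℕ, (1 + Q * x.1, Q * x.2) = (1 + Q * y.1, Q * y.2) → x = y := by
    intro x y hxy
    rw [Prod.mk.injEq] at hxy
    obtain ⟨h1, h2⟩ := hxy
    have h3 : Q * x.1 = Q * y.1 := by omega
    exact Prod.ext (Nat.eq_of_mul_eq_mul_left hQ h3) (Nat.eq_of_mul_eq_mul_left hQ h2)
  have hc3 : ∀ e ∈ es, ((B3 e).card : ℝ) ≤
      3 * (((2 * Q * T : ℕ) : ℝ) ^ 2 / P₁ + ((4 * Q * T : ℕ) : ℝ)) := by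
    intro e he
    rw [← card_image_of_injective (f := fun x : ℕ × ℕ => (1 + Q * x.1, Q * x.2)) _
      (fun x y hxy => hinj x y hxy)]
    refine bad3 (e := e) (U := 2 * Q * T) (P₁ := P₁) (P₂ := 4 * Q * T) (by omega) _ ?_
      (fun p hp hpP => hep e he p hp (by omega))
    intro y hy
    rw [mem_image] at hy
    obtain ⟨x, hx, rfl⟩ := hy
    obtain ⟨hx1, hcop, p, hp, hP, hP2, hd⟩ := mem_filter.1 hx
    obtain ⟨h1, h2, h3, h4, h5, h6, h7⟩ := hbox x hx1
    refine ⟨h5, ?_, h7, hcop, p, hp, hP, hP2, hd⟩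
    calc Q * x.2 ≤ 2 * K * (Q * x.2) := Nat.le_mul_of_pos_left _ (by omega)
      _ ≤ 1 + Q * x.1 := h6
  have hes3 : (es.card : ℝ) ≤ 3 := by exact_mod_cast (Finset.card_le_three : es.card ≤ 3)
  have hbu : ∀ (B : ℤ → Finset (ℕ × ℕ)) (β : ℝ), 0 ≤ β → (∀ e ∈ es, ((B e).card : ℝ) ≤ β) →
      ((es.biUnion B).card : ℝ) ≤ 3 * β := by
    intro B β hβ hB
    have h1 : ((es.biUnion B).card : ℝ) ≤ ∑ e ∈ es, ((B e).card : ℝ) := by
      exact_mod_cast (Finset.card_biUnion_le : (es.biUnion B).card ≤ ∑ e ∈ es, (B e).card)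
    refine (h1.trans (Finset.sum_le_card_nsmul _ _ _ hB)).trans ?_
    rw [nsmul_eq_mul]
    exact mul_le_mul_of_nonneg_right hes3 hβ
  have hc2' := hbu B2 _ (by positivity) hc2
  have hc3' := hbu B3 _ (by positivity) hc3
  -- good pairs
  have hcG : G.card ≤ (2 ^ R * 2 ^ R) * St.card := by
    set f : ℕ × ℕ → ℕ := fun x => (qf a (1 + Q * x.1) (Q * x.2) * qf b (1 + Q * x.1) (Q * x.2) *
      qf c (1 + Q * x.1) (Q * x.2)).toNat with hf
    have hfZ : ∀ x ∈ Bx, ((f x : ℕ) : ℤ) = qf a (1 + Q * x.1) (Q * x.2) *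
        qf b (1 + Q * x.1) (Q * x.2) * qf c (1 + Q * x.1) (Q * x.2) := by
      intro x hx
      have h1 := (hsize x hx a ha).1
      have h2 := (hsize x hx b hb).1
      have h3 := (hsize x hx c hc).1
      exact Int.toNat_of_nonneg (by positivity)
    apply Finset.card_le_mul_card_image_of_maps_to (f := f)
    · intro x hx
      obtain ⟨hx1, hxg⟩ := mem_filter.1 hx
      obtain ⟨hx2, hx3⟩ := mem_filter.1 hx1
      obtain ⟨s1, s1'⟩ := hsize x hx2 a ha
      obtain ⟨s2, s2'⟩ := hsize x hx2 b hb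
      obtain ⟨s3, s3'⟩ := hsize x hx2 c hc
      obtain ⟨b1, b2, b3, b4, b5, b6, b7⟩ := hbox x hx2
      obtain ⟨d, hd1, hd2⟩ := hPP x.1 x.2 b5 hxg s1 s2 s3
      have hfx := hfZ x hx2
      have hdf : d = f x := by
        have h1 : (h : ℤ) * d = h * f x := by
          rw [hfx]
          have h2 : ((h * d : ℕ) : ℤ) = (h : ℤ) * d := by push_cast; ring
          rw [← h2, hd1]
          rfl
        have h3 : (h : ℤ) ≠ 0 := by positivity
        exact_mod_cast mul_left_cancel₀ h3 h1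
      rw [hdf] at hd2
      have hle : f x ≤ 8 * (2 * Q * T) ^ 6 := by
        have h1 : ((f x : ℕ) : ℤ) ≤ ((8 * (2 * Q * T) ^ 6 : ℕ) : ℤ) := by
          rw [hfx]
          set u : ℤ := ((1 + Q * x.1 : ℕ) : ℤ) with hu
          have hu7 : u ≤ ((2 * Q * T : ℕ) : ℤ) := by rw [hu]; exact_mod_cast b7
          have hu0 : 0 ≤ u := by rw [hu]; positivity
          calc qf a (1 + Q * x.1) (Q * x.2) * qf b (1 + Q * x.1) (Q * x.2) *
              qf c (1 + Q * x.1) (Q * x.2) ≤ (2 * u ^ 2) * (2 * u ^ 2) * (2 * u ^ 2) := by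
                gcongr
            _ = 8 * u ^ 6 := by ring
            _ ≤ 8 * ((2 * Q * T : ℕ) : ℤ) ^ 6 := by gcongr
            _ = ((8 * (2 * Q * T) ^ 6 : ℕ) : ℤ) := by push_cast; ring
        exact_mod_cast h1
      have hhN : h * f x ≤ N := (Nat.mul_le_mul_left _ hle).trans hN
      rw [hSt, mem_filter, mem_range]
      refine ⟨?_, hhN, hd2, ?_⟩
      · have : 1 * f x ≤ h * f x := Nat.mul_le_mul_right _ hh
        omega
      · intro p hp hpd
        by_contra hcon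
        have hpY : p ≤ Y := by omega
        have hpZ := Nat.prime_iff_prime_int.1 hp
        have h1 : (p : ℤ) ∣ ((f x : ℕ) : ℤ) := Int.natCast_dvd_natCast.2 hpd
        rw [hfx] at h1
        rcases hpZ.dvd_or_dvd h1 with h2 | h2
        · rcases hpZ.dvd_or_dvd h2 with h3 | h3
          · exact hx3 p hp hpY a ha h3
          · exact hx3 p hp hpY b hb h3
        · exact hx3 p hp hpY c hc h2
    · intro d hd
      rw [hSt, mem_filter] at hd
      obtain ⟨-, hd1, hd2, hd3⟩ := hd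
      have hsq := hPPs d hd2
      have hdiv := card_div hsq (hω d hd1 hsq hd3)
      have hd0 : d ≠ 0 := hsq.ne_zero
      calc (G.filter (fun x => f x = d)).card ≤ (d.divisors ×ˢ d.divisors).card := by
            apply card_le_card_of_injOn (fun x => ((qf a (1 + Q * x.1) (Q * x.2)).toNat,
              (qf b (1 + Q * x.1) (Q * x.2)).toNat))
            · intro x hx
              rw [mem_coe, mem_filter] at hx
              obtain ⟨hx1, hxd⟩ := hx
              have hx2 := (mem_filter.1 (mem_filter.1 hx1).1).1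
              have s1 := (hsize x hx2 a ha).1
              have s2 := (hsize x hx2 b hb).1
              have hfx := hfZ x hx2
              rw [hxd] at hfx
              rw [mem_coe, mem_product]
              refine ⟨Nat.mem_divisors.2 ⟨?_, hd0⟩, Nat.mem_divisors.2 ⟨?_, hd0⟩⟩
              · have : (((qf a (1 + Q * x.1) (Q * x.2)).toNat : ℕ) : ℤ) ∣ (d : ℤ) := by
                  rw [Int.toNat_of_nonneg (by omega), hfx]
                  exact Dvd.dvd.mul_right (dvd_mul_right _ _) _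
                exact_mod_cast this
              · have : (((qf b (1 + Q * x.1) (Q * x.2)).toNat : ℕ) : ℤ) ∣ (d : ℤ) := by
                  rw [Int.toNat_of_nonneg (by omega), hfx]
                  exact Dvd.dvd.mul_right (dvd_mul_left _ _) _
                exact_mod_cast this
            · intro x hx y hy hxy
              rw [mem_coe, mem_filter] at hx hy
              have hx2 := (mem_filter.1 (mem_filter.1 hx.1).1).1
              have hy2 := (mem_filter.1 (mem_filter.1 hy.1).1).1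
              have s1 := (hsize x hx2 a ha).1
              have s2 := (hsize x hx2 b hb).1
              have t1 := (hsize y hy2 a ha).1
              have t2 := (hsize y hy2 b hb).1
              simp only [Prod.mk.injEq] at hxy
              obtain ⟨e1, e2⟩ := hxy
              have e1' : qf a (1 + Q * x.1) (Q * x.2) = qf a (1 + Q * y.1) (Q * y.2) := by omega
              have e2' : qf b (1 + Q * x.1) (Q * x.2) = qf b (1 + Q * y.1) (Q * y.2) := by omega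
              unfold qf at e1' e2'
              have h1 : (b - a) * ((Q * x.2 : ℕ) : ℤ) ^ 2 = (b - a) * ((Q * y.2 : ℕ) : ℤ) ^ 2 := by
                linear_combination e1' - e2'
              have h2 : ((Q * x.2 : ℕ) : ℤ) ^ 2 = ((Q * y.2 : ℕ) : ℤ) ^ 2 :=
                mul_left_cancel₀ (sub_ne_zero.2 hab.symm) h1
              have h3 : ((1 + Q * x.1 : ℕ) : ℤ) ^ 2 = ((1 + Q * y.1 : ℕ) : ℤ) ^ 2 := by
                linear_combination e1' + a * h2
              have h4 : (Q * x.2) ^ 2 = (Q * y.2) ^ 2 := by exact_mod_cast h2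
              have h5 : (1 + Q * x.1) ^ 2 = (1 + Q * y.1) ^ 2 := by exact_mod_cast h3
              have h6 := Nat.pow_left_injective two_ne_zero h4
              have h7 := Nat.pow_left_injective two_ne_zero h5
              exact hinj x y (Prod.ext h7 h6)
        _ = d.divisors.card * d.divisors.card := card_product _ _
        _ ≤ 2 ^ R * 2 ^ R := Nat.mul_le_mul hdiv hdiv
  have hcard := (card_le_card hsub).trans ((card_union_le _ _).trans (Nat.add_le_add_left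
    ((card_union_le _ _).trans (Nat.add_le_add_left (card_union_le _ _) _)) _))
  have hcard' : (Sv.card : ℝ) ≤ G.card + (B1.card + ((es.biUnion B2).card +
      (es.biUnion B3).card)) := by exact_mod_cast hcard
  have hcG' : (G.card : ℝ) ≤ ((2 ^ R * 2 ^ R : ℕ) : ℝ) * St.card := by exact_mod_cast hcG
  linarith

end Pool.Agent.TH646.RT
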