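import Pool.Agent.TH646.RT.Comb
import Pool.Agent.TH646.AT.Main

set_option autoImplicit false

open Finset Filter

namespace Pool.Agent.TH646.RT

open Pool.Agent.TH562.R2 (qf GoodS FZ)
open Pool.Agent.TH646.AT (omega_le)

theorem ev_log (A δ : ℝ) (hδ : 0 < δ) : ∀ᶠ t : ℝ in atTop, A * Real.log t ^ 13 ≤ t ^ δ := by
  have h1 : (fun x : ℝ => Real.log x) =o[atTop] (fun x : ℝ => x ^ (δ / 14)) :=
    isLittleO_log_rpow_atTop (by positivity)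
  have h2 : ∀ᶠ x : ℝ in atTop, A ≤ x ^ (δ / 14) :=
    (tendsto_rpow_atTop (by positivity)).eventually_ge_atTop A
  filter_upwards [h1.bound (by norm_num : (0 : ℝ) < 1), h2, eventually_ge_atTop 1]
    with x hx hx2 hx1
  rw [one_mul, Real.norm_of_nonneg (Real.log_nonneg hx1),
    Real.norm_of_nonneg (by positivity)] at hx
  have hl0 := Real.log_nonneg hx1
  calc A * Real.log x ^ 13 ≤ x ^ (δ / 14) * (x ^ (δ / 14)) ^ 13 :=
        mul_le_mul hx2 (pow_le_pow_left₀ hl0 hx 13) (by positivity) (by positivity)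
    _ = x ^ δ := by
        rw [← Real.rpow_natCast, ← Real.rpow_mul (by linarith), ← Real.rpow_add (by linarith)]
        congr 1
        push_cast
        ring

/-- the final computation -/
theorem num {t x ℓ c₂ K Q V E Y w bad1 bad2 bad3 S r : ℝ} (ht : 0 < t) (hx : 1 ≤ x)
    (hℓ : 1 ≤ ℓ) (hc₂ : 0 < c₂) (hK : 1 ≤ K) (hQ : 1 ≤ Q) (hxt : x * x ≤ t)
    (hV0 : 0 ≤ V) (hVt : V ≤ t) (hV : t ≤ 4 * K * V) (hYx : x ≤ 2 * Y) (hYx2 : Y ≤ x)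
    (hw : w ≤ 2 * ℓ) (hw0 : 0 ≤ w)
    (hE : t * (c₂ / ℓ ^ 12) - t / x ≤ E)
    (hb1 : bad1 = V * (w * (t / Y + 1))) (hb2 : bad2 = 3 * (V * (3 * (t / Y + Y))))
    (hb3 : bad3 = 3 * (3 * ((2 * Q * t) ^ 2 / Y + 4 * Q * t)))
    (hmain : V * E ≤ bad1 + bad2 + bad3 + r * S)
    (hbig : 2256 * K * Q ^ 2 / c₂ * ℓ ^ 13 ≤ x) :
    t ^ 2 * c₂ ≤ 16 * K * ℓ ^ 12 * (r * S) := by
  have hx0 : 0 < x := by linarith
  have hY0 : 0 < Y := by linarith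
  have hℓ0 : 0 < ℓ := by linarith
  have hK0 : 0 < K := by linarith
  set q : ℝ := t / x with hq
  have hq0 : 0 < q := by positivity
  have hqx : q * x = t := by rw [hq]; field_simp
  have hxq : x ≤ q := by rw [hq, le_div_iff₀ hx0]; exact hxt
  have hq1 : 1 ≤ q := hx.trans hxq
  have htY : t / Y ≤ 2 * q := by
    rw [div_le_iff₀ hY0, ← hqx]
    nlinarith
  have hb1' : bad1 ≤ t * (6 * ℓ * q) := by
    rw [hb1]
    have h1 : t / Y + 1 ≤ 3 * q := by linarith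
    calc V * (w * (t / Y + 1)) ≤ t * ((2 * ℓ) * (3 * q)) := by
          have h0 : 0 ≤ t / Y + 1 := by positivity
          gcongr
      _ = t * (6 * ℓ * q) := by ring
  have hb2' : bad2 ≤ t * (27 * q) := by
    rw [hb2]
    have h1 : t / Y + Y ≤ 3 * q := by linarith
    have h0 : 0 ≤ t / Y + Y := by positivity
    calc 3 * (V * (3 * (t / Y + Y))) ≤ 3 * (t * (3 * (3 * q))) := by gcongr
      _ = t * (27 * q) := by ring
  have hb3' : bad3 ≤ t * (108 * Q ^ 2 * q) := by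
    rw [hb3]
    have h1 : (2 * Q * t) ^ 2 / Y = 4 * Q ^ 2 * t * (t / Y) := by field_simp; ring
    rw [h1]
    have h2 : 4 * Q ^ 2 * t * (t / Y) ≤ 4 * Q ^ 2 * t * (2 * q) :=
      mul_le_mul_of_nonneg_left htY (by positivity)
    have h3 : Q * 1 * 1 ≤ Q * Q * q := by gcongr
    have h4 : 4 * Q * t ≤ 4 * t * (Q * Q * q) := by
      calc 4 * Q * t = 4 * t * (Q * 1 * 1) := by ring
        _ ≤ 4 * t * (Q * Q * q) := mul_le_mul_of_nonneg_left h3 (by positivity)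
    calc 3 * (3 * (4 * Q ^ 2 * t * (t / Y) + 4 * Q * t)) ≤
        3 * (3 * (4 * Q ^ 2 * t * (2 * q) + 4 * t * (Q * Q * q))) := by linarith
      _ = t * (108 * Q ^ 2 * q) := by ring
  have hQ2 : 1 ≤ Q ^ 2 := one_le_pow₀ hQ
  have hsum : bad1 + bad2 + bad3 ≤ 141 * Q ^ 2 * ℓ * (t * q) := by
    have h1 : 6 * ℓ * q + 27 * q + 108 * Q ^ 2 * q ≤ 141 * Q ^ 2 * ℓ * q := by
      have h2 : 1 * ℓ ≤ Q ^ 2 * ℓ := mul_le_mul_of_nonneg_right hQ2 hℓ0.le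
      have h3 : Q ^ 2 * 1 ≤ Q ^ 2 * ℓ := mul_le_mul_of_nonneg_left hℓ (by positivity)
      have h4 : 6 * ℓ + 27 + 108 * Q ^ 2 ≤ 141 * Q ^ 2 * ℓ := by linarith
      calc 6 * ℓ * q + 27 * q + 108 * Q ^ 2 * q = (6 * ℓ + 27 + 108 * Q ^ 2) * q := by ring
        _ ≤ (141 * Q ^ 2 * ℓ) * q := mul_le_mul_of_nonneg_right h4 hq0.le
    have h5 := mul_le_mul_of_nonneg_left h1 ht.le
    linarith
  -- the main comparison
  set e : ℝ := c₂ / ℓ ^ 12 with he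
  have he0 : 0 < e := by positivity
  have hbig2 : 2256 * K * Q ^ 2 * ℓ ≤ x * e := by
    rw [he, mul_div_assoc', le_div_iff₀ (by positivity)]
    have h1 := mul_le_mul_of_nonneg_right hbig hc₂.le
    have h2 : 2256 * K * Q ^ 2 / c₂ * ℓ ^ 13 * c₂ = 2256 * K * Q ^ 2 * ℓ * ℓ ^ 12 := by
      field_simp
    linarith
  have hbig3 : 2256 * K * Q ^ 2 * ℓ * q ≤ t * e := by
    calc 2256 * K * Q ^ 2 * ℓ * q ≤ (x * e) * q := mul_le_mul_of_nonneg_right hbig2 hq0.le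
      _ = t * e := by rw [← hqx]; ring
  have h2q : 2 * q ≤ t * e := by
    refine le_trans ?_ hbig3
    have h1 : (1 : ℝ) * 1 * 1 ≤ K * Q ^ 2 * ℓ := by gcongr
    have h2 : 1 * q ≤ K * Q ^ 2 * ℓ * q := mul_le_mul_of_nonneg_right (by linarith) hq0.le
    linarith
  have hEl : t * e / 2 ≤ E := by linarith
  have hVE : t * (t * e / 2) ≤ 4 * K * (V * E) := by
    have h1 : t * (t * e / 2) ≤ (4 * K * V) * (t * e / 2) :=
      mul_le_mul_of_nonneg_right hV (by positivity)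
    have h2 : (4 * K * V) * (t * e / 2) ≤ (4 * K * V) * E :=
      mul_le_mul_of_nonneg_left hEl (by positivity)
    linarith
  have hsum2 : 16 * K * (bad1 + bad2 + bad3) ≤ t * (t * e) := by
    have h1 := mul_le_mul_of_nonneg_left hsum (by positivity : 0 ≤ 16 * K)
    have h2 := mul_le_mul_of_nonneg_left hbig3 ht.le
    linarith
  have hfin : t ^ 2 * e ≤ 16 * K * (r * S) := by
    have h1 := mul_le_mul_of_nonneg_left hmain (by positivity : 0 ≤ 16 * K)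
    have h2 : 4 * (t * (t * e / 2)) ≤ 16 * K * (V * E) := by linarith
    nlinarith
  have h1 := mul_le_mul_of_nonneg_right hfin (by positivity : 0 ≤ ℓ ^ 12)
  have h2 : t ^ 2 * e * ℓ ^ 12 = t ^ 2 * c₂ := by rw [he]; field_simp
  linarith

open Classical in
theorem core {h : ℕ} (hh : 1 ≤ h) {a b c : ℤ} (ha0 : a ≠ 0) (hb0 : b ≠ 0) (hc0 : c ≠ 0)
    (hab : a ≠ b) (Z : ℕ) {M : ℕ} (hM : 0 < M) :
    ∃ W Q : ℕ, Z ≤ W ∧ M ∣ Q ∧ (∀ p : ℕ, p.Prime → p ≤ W → p ∣ Q) ∧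
      ∃ R : ℕ, 0 < R ∧ ∃ N₀ : ℕ, ∀ PP : ℕ → Prop, (∀ d, PP d → Squarefree d) →
      (∀ i j : ℕ, 0 < Q * j → GoodS Q W {a, b, c} (i, j) → 1 < qf a (1 + Q * i) (Q * j) →
        1 < qf b (1 + Q * i) (Q * j) → 1 < qf c (1 + Q * i) (Q * j) →
        ∃ d : ℕ, ((h * d : ℕ) : ℤ) = FZ h a b c (1 + Q * i) (Q * j) ∧ PP d) →
      ∀ N : ℕ, N₀ ≤ N → (N : ℝ) ^ (1 / 3 : ℝ) / Real.log N ^ 13 ≤
        (((range (N + 1)).filter (fun d => h * d ≤ N ∧ PP d ∧ d.primeFactors.card ≤ R ∧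
          ∀ p : ℕ, p.Prime → p ∣ d → (N : ℝ) ^ (1 / (R : ℝ)) < p)).card : ℝ) := by
  obtain ⟨c₀, κ, hκ, hS⟩ := sieve6
  obtain ⟨K, hKd⟩ : ∃ K : ℕ, K = a.natAbs + b.natAbs + c.natAbs + 1 := ⟨_, rfl⟩
  obtain ⟨W, hWd⟩ : ∃ W : ℕ, W = Z + M + 12 := ⟨_, rfl⟩
  obtain ⟨Q, hQd⟩ : ∃ Q : ℕ, Q = W.factorial := ⟨_, rfl⟩
  have hQ : 0 < Q := by rw [hQd]; exact Nat.factorial_pos W
  have hMQ : M ∣ Q := by rw [hQd]; exact Nat.dvd_factorial hM (by omega)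
  have hQW' : ∀ p : ℕ, p.Prime → p ≤ W → p ∣ Q := fun p hp hpW => by
    rw [hQd]; exact (hp.dvd_factorial).2 hpW
  have hQ12 : ∀ p : ℕ, p.Prime → p ≤ 12 → p ∣ Q := fun p hp h12 => hQW' p hp (by omega)
  obtain ⟨n, hnd⟩ : ∃ n : ℕ, n = 12 * c₀ + 2 := ⟨_, rfl⟩
  obtain ⟨R, hRd⟩ : ∃ R : ℕ, R = 7 * n := ⟨_, rfl⟩
  obtain ⟨c₅, hc₅⟩ : ∃ c₅ : ℕ, c₅ = 512 * h * Q ^ 6 := ⟨_, rfl⟩
  have hc₅1 : 1 ≤ c₅ := by rw [hc₅]; exact Nat.one_le_iff_ne_zero.2 (by positivity)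
  set c₂ : ℝ := κ ^ 12 / 8192 with hc₂
  have hc₂0 : 0 < c₂ := by positivity
  set δ : ℝ := 1 / n with hδ
  have hn0 : (0 : ℝ) < n := by rw [hnd]; positivity
  have hδ0 : 0 < δ := by positivity
  have hKr : (1 : ℝ) ≤ K := by
    have : 1 ≤ K := by omega
    exact_mod_cast this
  have hQr : (1 : ℝ) ≤ Q := by exact_mod_cast hQ
  have hc₅r : (1 : ℝ) ≤ c₅ := by exact_mod_cast hc₅1
  set D₂ : ℝ := 16 * K * ((2 ^ R * 2 ^ R : ℕ) : ℝ) * (64 * c₅) / c₂ with hD₂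
  have hD₂0 : 0 ≤ D₂ := by positivity
  obtain ⟨t₀, ht₀⟩ := ((ev_log (2256 * K * Q ^ 2 / c₂) δ hδ0).and
    ((Real.tendsto_log_atTop.eventually_ge_atTop (D₂ + 1)).and
    ((eventually_ge_atTop (64 * (c₅ : ℝ) + 8 * K + 2)).and
    ((tendsto_rpow_atTop hδ0).eventually_ge_atTop
      ((Q : ℝ) + 2 * K + W + 4))))).exists_forall_of_atTop
  refine ⟨W, Q, by omega, hMQ, hQW', R, by omega, c₅ * (⌈t₀⌉₊ + 1) ^ 6, ?_⟩
  intro PP hPPs hPP N hN
  -- the choice of T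
  set T : ℕ := ⌊((N : ℝ) / c₅) ^ (1 / 6 : ℝ)⌋₊ with hT
  have hNc0 : (0 : ℝ) ≤ (N : ℝ) / c₅ := by positivity
  have h6 : ((((N : ℝ) / c₅) ^ (1 / 6 : ℝ)) ^ 6 : ℝ) = (N : ℝ) / c₅ := by
    rw [← Real.rpow_natCast, ← Real.rpow_mul hNc0]; norm_num
  have hTle : (T : ℝ) ≤ ((N : ℝ) / c₅) ^ (1 / 6 : ℝ) := Nat.floor_le (by positivity)
  have hTlt : ((N : ℝ) / c₅) ^ (1 / 6 : ℝ) < T + 1 := Nat.lt_floor_add_one _
  have hTN : (c₅ : ℝ) * (T : ℝ) ^ 6 ≤ N := by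
    have h1 := pow_le_pow_left₀ (Nat.cast_nonneg T) hTle 6
    rw [h6, le_div_iff₀ (by linarith)] at h1
    linarith
  have hTt₀ : (⌈t₀⌉₊ : ℝ) ≤ T := by
    have h1 : ((⌈t₀⌉₊ + 1 : ℕ) : ℝ) ≤ ((N : ℝ) / c₅) ^ (1 / 6 : ℝ) := by
      apply le_of_pow_le_pow_left₀ (n := 6) (by norm_num) (by positivity)
      rw [h6, le_div_iff₀ (by linarith)]
      have h2 : ((c₅ * (⌈t₀⌉₊ + 1) ^ 6 : ℕ) : ℝ) ≤ N := by exact_mod_cast hN
      push_cast at h2 ⊢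
      linarith
    have h2 : ((⌈t₀⌉₊ + 1 : ℕ) : ℝ) < T + 1 := h1.trans_lt hTlt
    push_cast at h2
    linarith
  have htt : t₀ ≤ (T : ℝ) := (Nat.le_ceil t₀).trans hTt₀
  obtain ⟨e1, e2, e3, e4⟩ := ht₀ T htt
  set t : ℝ := (T : ℝ) with ht
  set ℓ : ℝ := Real.log t with hℓ
  set x : ℝ := t ^ δ with hx
  have hWr : (0 : ℝ) ≤ W := Nat.cast_nonneg W
  have ht2 : 2 ≤ t := by linarith
  have ht0 : 0 < t := by linarith
  have ht1 : 1 ≤ t := by linarith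
  have hN64 : (N : ℝ) ≤ 64 * c₅ * t ^ 6 := by
    have h1 : ((N : ℝ) / c₅) ^ (1 / 6 : ℝ) ≤ 2 * t := by linarith
    have h2 := pow_le_pow_left₀ (by positivity) h1 6
    rw [h6, div_le_iff₀ (by linarith)] at h2
    have h3 : (2 * t) ^ 6 * c₅ = 64 * c₅ * t ^ 6 := by ring
    linarith
  have hx1 : 1 < x := by linarith
  have hx0 : 0 < x := by linarith
  have hxn : x ^ n = t := by
    rw [hx, ← Real.rpow_natCast, ← Real.rpow_mul ht0.le, hδ, one_div, inv_mul_cancel₀ hn0.ne',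
      Real.rpow_one]
  have hxi : ∀ i, i ≤ n → x ^ i ≤ t := fun i hi => (pow_le_pow_right₀ hx1.le hi).trans hxn.le
  have hℓ1 : 1 ≤ ℓ := by linarith
  have hℓ0 : 0 < ℓ := by linarith
  have hN7 : (N : ℝ) ≤ x ^ R := by
    have h1 : x ^ R = t ^ 7 := by
      rw [hRd, mul_comm, pow_mul, hxn]
    rw [h1]
    have h2 : 64 * (c₅ : ℝ) ≤ t := by linarith
    calc (N : ℝ) ≤ 64 * c₅ * t ^ 6 := hN64
      _ ≤ t * t ^ 6 := mul_le_mul_of_nonneg_right h2 (by positivity)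
      _ = t ^ 7 := by ring
  -- Y
  set Y : ℕ := ⌊x⌋₊ with hY
  have hY1 : (Y : ℝ) ≤ x := Nat.floor_le hx0.le
  have hY2 : x < Y + 1 := Nat.lt_floor_add_one _
  have hYbig : Q + 2 * K + W + 2 ≤ Y := by
    have : ((Q + 2 * K + W + 2 : ℕ) : ℝ) ≤ Y := by push_cast; linarith
    exact_mod_cast this
  obtain ⟨J, hJ1, hJ2⟩ := Pool.Agent.H661R3.OP.SVA.exists_J (show 2 ≤ Y by omega)
  have hJx : ((2 : ℝ) ^ 2 ^ J) ≤ x ^ 2 := by
    have h1 : ((2 : ℝ) ^ 2 ^ J) ≤ (Y : ℝ) ^ 2 := by exact_mod_cast hJ2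
    exact h1.trans (pow_le_pow_left₀ (by positivity) hY1 2)
  have hJL : (2 : ℝ) ^ J ≤ 2 * ℓ := by
    have h3 := Real.log_le_log (by positivity) (hJx.trans (hxi 2 (by omega)))
    rw [Real.log_pow] at h3
    push_cast at h3
    have h4 := Real.log_two_gt_d9
    have h6 : (2 : ℝ) ^ J * (1 / 2) ≤ 2 ^ J * Real.log 2 :=
      mul_le_mul_of_nonneg_left (by linarith only [h4]) (by positivity)
    linarith only [h3, h6]
  -- V
  set V : ℕ := T / (2 * K) with hV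
  have hV1 : 2 * K * V ≤ T := Nat.mul_div_le T (2 * K)
  have hV2 : T < 2 * K * V + 2 * K := by
    have h1 := Nat.div_add_mod T (2 * K)
    have h2 := Nat.mod_lt T (show 2 * K > 0 by omega)
    rw [← hV] at h1
    omega
  have hVr : t ≤ 4 * K * V := by
    have h1 : t < 2 * K * V + 2 * K := by rw [ht]; exact_mod_cast hV2
    linarith
  have hVt : (V : ℝ) ≤ t := by
    rw [ht]
    exact_mod_cast Nat.div_le_self T (2 * K)
  have hT2 : 2 ≤ T := by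
    have h := ht2
    rw [ht] at h
    exact_mod_cast h
  -- the number of prime factors
  have hω : ∀ d : ℕ, h * d ≤ N → Squarefree d → (∀ p : ℕ, p.Prime → p ∣ d → Y < p) →
      d.primeFactors.card ≤ R := by
    intro d hd hsq hp
    have hd0 : d ≠ 0 := hsq.ne_zero
    have h1 : x ^ d.primeFactors.card ≤ ((∏ p ∈ d.primeFactors, p : ℕ) : ℝ) := by
      push_cast
      rw [← prod_const]
      apply Finset.prod_le_prod
      · intro _ _; exact hx0.le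
      · intro p hpd
        rw [Nat.mem_primeFactors] at hpd
        have := hp p hpd.1 hpd.2.1
        have h3 : (Y : ℝ) + 1 ≤ p := by exact_mod_cast this
        linarith
    have h2 : ∏ p ∈ d.primeFactors, p ≤ d :=
      Nat.le_of_dvd (Nat.pos_of_ne_zero hd0) (Nat.prod_primeFactors_dvd d)
    have h3 : d ≤ h * d := Nat.le_mul_of_pos_left _ hh
    have h4 : ((∏ p ∈ d.primeFactors, p : ℕ) : ℝ) ≤ N := by exact_mod_cast (h2.trans h3).trans hd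
    exact (pow_le_pow_iff_right₀ hx1).1 ((h1.trans h4).trans hN7)
  -- the combination
  have hcomb := comb hh hab (K := K) (by omega)
    (by
      intro e he
      simp only [Finset.mem_insert, Finset.mem_singleton] at he
      rcases he with rfl | rfl | rfl
      · exact ⟨ha0, by rw [Int.abs_eq_natAbs]; omega⟩
      · exact ⟨hb0, by rw [Int.abs_eq_natAbs]; omega⟩
      · exact ⟨hc0, by rw [Int.abs_eq_natAbs]; omega⟩)
    (Q := Q) (W := W) (Y := Y) (T := T) (V := V) (P₁ := Y) (N := N) (R := R) (w := ⌊2 * ℓ⌋₊)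
    PP hPPs hQ (by omega) (by omega) (by omega) le_rfl hV1 hT2 hPP
    (by
      have h1 : ((h * (8 * (2 * Q * T) ^ 6) : ℕ) : ℝ) ≤ N := by
        refine le_trans (le_of_eq ?_) hTN
        rw [hc₅]
        push_cast
        ring
      exact_mod_cast h1)
    (E := (T : ℝ) / 2 * (κ / 2 ^ J) ^ 12 - ((2 : ℝ) ^ 2 ^ J) ^ (c₀ * 6))
    (fun j => hS _ Q Y J T j Finset.card_le_three hQ12 hJ1)
    (by
      intro j hj hjV
      apply Nat.le_floor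
      apply omega_le hj
      rw [hℓ]
      apply Real.log_le_log (by exact_mod_cast hj)
      exact le_trans (by exact_mod_cast hjV) hVt)
    hω
  set St : Finset ℕ := (range (N + 1)).filter (fun d => h * d ≤ N ∧ PP d ∧
        ∀ p : ℕ, p.Prime → p ∣ d → Y < p) with hSt
  have hElow : t * (c₂ / ℓ ^ 12) - t / x ≤
      (T : ℝ) / 2 * (κ / 2 ^ J) ^ 12 - ((2 : ℝ) ^ 2 ^ J) ^ (c₀ * 6) := by
    have h1 : κ / (2 * ℓ) ≤ κ / 2 ^ J := div_le_div_of_nonneg_left hκ.le (by positivity) hJL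
    have h2 := pow_le_pow_left₀ (by positivity) h1 12
    have h3 : (κ / (2 * ℓ)) ^ 12 = 2 * (c₂ / ℓ ^ 12) := by
      rw [hc₂, div_pow, mul_pow]
      field_simp
      norm_num
    rw [h3] at h2
    have h4 : t * (c₂ / ℓ ^ 12) ≤ (T : ℝ) / 2 * (κ / 2 ^ J) ^ 12 := by
      calc t * (c₂ / ℓ ^ 12) = t / 2 * (2 * (c₂ / ℓ ^ 12)) := by ring
        _ ≤ (T : ℝ) / 2 * (κ / 2 ^ J) ^ 12 := mul_le_mul_of_nonneg_left h2 (by positivity)
    have h5 : ((2 : ℝ) ^ 2 ^ J) ^ (c₀ * 6) ≤ t / x := by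
      rw [le_div_iff₀ hx0]
      calc ((2 : ℝ) ^ 2 ^ J) ^ (c₀ * 6) * x ≤ (x ^ 2) ^ (c₀ * 6) * x :=
            mul_le_mul_of_nonneg_right (pow_le_pow_left₀ (by positivity) hJx _) hx0.le
        _ = x ^ (12 * c₀ + 1) := by rw [← pow_mul, ← pow_succ]; congr 1; ring
        _ ≤ t := hxi _ (by omega)
    linarith
  have hcomb' := num (t := t) (x := x) (ℓ := ℓ) (c₂ := c₂) (K := K) (Q := Q) (V := V)
    (E := (T : ℝ) / 2 * (κ / 2 ^ J) ^ 12 - ((2 : ℝ) ^ 2 ^ J) ^ (c₀ * 6)) (Y := Y)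
    (w := ((⌊2 * ℓ⌋₊ : ℕ) : ℝ))
    (bad1 := V * (((⌊2 * ℓ⌋₊ : ℕ) : ℝ) * (t / Y + 1))) (bad2 := 3 * (V * (3 * (t / Y + Y))))
    (bad3 := 3 * (3 * ((2 * Q * t) ^ 2 / Y + 4 * Q * t))) (S := St.card)
    (r := ((2 ^ R * 2 ^ R : ℕ) : ℝ)) ht0 hx1.le hℓ1 hc₂0 hKr hQr
    (by rw [← sq]; exact hxi 2 (by omega)) (Nat.cast_nonneg V) hVt hVr (by linarith) hY1
    (Nat.floor_le (by positivity)) (Nat.cast_nonneg _) hElow rfl rfl rfl
    (by
      refine hcomb.trans (le_of_eq ?_)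
      push_cast
      ring) e1
  -- inclusion
  have hsub : St ⊆ (range (N + 1)).filter (fun d => h * d ≤ N ∧ PP d ∧
      d.primeFactors.card ≤ R ∧ ∀ p : ℕ, p.Prime → p ∣ d → (N : ℝ) ^ (1 / (R : ℝ)) < p) := by
    intro d hd
    rw [hSt, mem_filter] at hd
    obtain ⟨hd1, hd2, hd3, hd4⟩ := hd
    rw [mem_filter]
    refine ⟨hd1, hd2, hd3, hω d hd2 (hPPs d hd3) hd4, fun p hp hpd => ?_⟩
    have h1 := hd4 p hp hpd
    have h2 : (Y : ℝ) + 1 ≤ p := by exact_mod_cast h1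
    have hR0 : (0 : ℝ) < R := by
      have : 0 < R := by omega
      exact_mod_cast this
    have h3 : (N : ℝ) ^ (1 / (R : ℝ)) ≤ x := by
      calc (N : ℝ) ^ (1 / (R : ℝ)) ≤ (x ^ R) ^ (1 / (R : ℝ)) :=
            Real.rpow_le_rpow (Nat.cast_nonneg N) hN7 (by positivity)
        _ = x := by
            rw [← Real.rpow_natCast, ← Real.rpow_mul hx0.le, mul_one_div_cancel hR0.ne',
              Real.rpow_one]
    linarith
  refine le_trans ?_ (Nat.cast_le.2 (card_le_card hsub))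
  -- the end
  have hNt : t ≤ N := by
    have h1 : t ≤ t ^ 6 := le_self_pow₀ ht1 (by norm_num)
    have h2 : t ^ 6 ≤ c₅ * t ^ 6 := le_mul_of_one_le_left (by positivity) hc₅r
    linarith
  have hlogN : ℓ ≤ Real.log N := Real.log_le_log ht0 hNt
  have hN3 : (N : ℝ) ^ (1 / 3 : ℝ) ≤ 64 * c₅ * t ^ 2 := by
    apply le_of_pow_le_pow_left₀ (n := 3) (by norm_num) (by positivity)
    have h1 : ((N : ℝ) ^ (1 / 3 : ℝ)) ^ 3 = N := by
      rw [← Real.rpow_natCast, ← Real.rpow_mul (Nat.cast_nonneg N)]; norm_num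
    rw [h1]
    refine hN64.trans ?_
    have h2 : 64 * (c₅ : ℝ) ≤ (64 * c₅) ^ 3 := le_self_pow₀ (by linarith) (by norm_num)
    calc 64 * (c₅ : ℝ) * t ^ 6 ≤ (64 * c₅) ^ 3 * t ^ 6 :=
          mul_le_mul_of_nonneg_right h2 (by positivity)
      _ = (64 * c₅ * t ^ 2) ^ 3 := by ring
  have hS0 : (0 : ℝ) ≤ St.card := Nat.cast_nonneg _
  have hlast : 64 * c₅ * t ^ 2 ≤ ℓ ^ 13 * St.card := by
    have h1 : t ^ 2 * c₂ * (64 * c₅ / c₂) ≤
        16 * K * ℓ ^ 12 * (((2 ^ R * 2 ^ R : ℕ) : ℝ) * St.card) * (64 * c₅ / c₂) :=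
      mul_le_mul_of_nonneg_right hcomb' (by positivity)
    have h2 : t ^ 2 * c₂ * (64 * c₅ / c₂) = 64 * c₅ * t ^ 2 := by field_simp
    have h3 : 16 * K * ℓ ^ 12 * (((2 ^ R * 2 ^ R : ℕ) : ℝ) * St.card) * (64 * c₅ / c₂) =
        D₂ * (ℓ ^ 12 * St.card) := by rw [hD₂]; ring
    rw [h2, h3] at h1
    have h4 : D₂ * (ℓ ^ 12 * St.card) ≤ ℓ * (ℓ ^ 12 * St.card) :=
      mul_le_mul_of_nonneg_right (by linarith) (by positivity)
    calc 64 * c₅ * t ^ 2 ≤ ℓ * (ℓ ^ 12 * St.card) := h1.trans h4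
      _ = ℓ ^ 13 * St.card := by ring
  have hlogN0 : 0 < Real.log N := by linarith
  rw [div_le_iff₀ (by positivity)]
  calc (N : ℝ) ^ (1 / 3 : ℝ) ≤ 64 * c₅ * t ^ 2 := hN3
    _ ≤ ℓ ^ 13 * St.card := hlast
    _ ≤ Real.log N ^ 13 * St.card :=
        mul_le_mul_of_nonneg_right (pow_le_pow_left₀ hℓ0.le hlogN 13) hS0
    _ = St.card * Real.log N ^ 13 := by ring

end Pool.Agent.TH646.RT
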