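import Pool.Agent.TH646.RT.Base
import Pool.Agent.TH646.RT.Comb

set_option autoImplicit false

open Finset

namespace Pool.Agent.TH646.RT.Win

open Pool.Agent.TH562.R2 (qf GoodS FZ)
open Pool.Agent.TH562.TW (card_spaced)
open Pool.Agent.TH646.AT (sieve_gen mult_count sum_inv_sq card_div)
open Pool.Agent.H410R2.ED (Pr)
open Pool.Agent.H661R3.OP.SVA (prime_of_mem_Pr)
open Pool.Agent.TH646.RT (color2 bad3 two not_dvd_v rows rows_le le_rows qf_size)

open Classical in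
/-- common factors -/
theorem bad1 {Q T Y j u₀ : ℕ} (hY : 1 ≤ Y) (hj : j ≠ 0)
    (hQp : ∀ p : ℕ, p.Prime → Y < p → ¬ p ∣ Q) :
    ((((range T).filter (fun i => ∃ p : ℕ, p.Prime ∧ Y < p ∧ p ∣ 1 + Q * (u₀ + i) ∧
      p ∣ j)).card : ℕ) : ℝ) ≤ j.primeFactors.card * (T / Y + 1) := by
  classical
  have hsub : (range T).filter (fun i => ∃ p : ℕ, p.Prime ∧ Y < p ∧ p ∣ 1 + Q * (u₀ + i) ∧
      p ∣ j) ⊆ (j.primeFactors.filter (fun p => Y < p)).biUnion
        (fun p => (range T).filter (fun i => p ∣ 1 + Q * (u₀ + i))) := by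
    intro u hu
    rw [mem_filter] at hu
    obtain ⟨hu1, p, hp, hYp, hpu, hpv⟩ := hu
    rw [mem_biUnion]
    exact ⟨p, mem_filter.2 ⟨Nat.mem_primeFactors.2 ⟨hp, hpv, hj⟩, hYp⟩, mem_filter.2 ⟨hu1, hpu⟩⟩
  have h1 := (card_le_card hsub).trans card_biUnion_le
  refine (Nat.cast_le (α := ℝ).2 h1).trans ?_
  rw [Nat.cast_sum]
  have h0 : (0 : ℝ) ≤ T / Y + 1 := by positivity
  refine le_trans (sum_le_card_nsmul _ _ (T / Y + 1 : ℝ) ?_) ?_
  · intro p hp
    rw [mem_filter, Nat.mem_primeFactors] at hp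
    obtain ⟨⟨hp, -, -⟩, hYp⟩ := hp
    have h3 := mult_count (F := (range T).filter (fun i => p ∣ 1 + Q * (u₀ + i))) (u₀ := 0) (T := T)
      (m := p) hp.pos
      (fun u hu => by rw [mem_filter, mem_range] at hu; omega)
      (fun u hu u' hu' => by
        rw [mem_filter] at hu hu'
        have h4 : (p : ℤ) ∣ ((1 + Q * (u₀ + u) : ℕ) : ℤ) - ((1 + Q * (u₀ + u') : ℕ) : ℤ) :=
          dvd_sub (Int.natCast_dvd_natCast.2 hu.2) (Int.natCast_dvd_natCast.2 hu'.2)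
        have h5 : (p : ℤ) ∣ (Q : ℤ) * ((u : ℤ) - u') := by
          have e : ((1 + Q * (u₀ + u) : ℕ) : ℤ) - ((1 + Q * (u₀ + u') : ℕ) : ℤ) = (Q : ℤ) * ((u : ℤ) - u') := by
            push_cast; ring
          rwa [e] at h4
        rcases (Nat.prime_iff_prime_int.1 hp).dvd_or_dvd h5 with h6 | h6
        · exact absurd (Int.natCast_dvd_natCast.1 h6) (hQp p hp hYp)
        · exact h6)
    refine h3.trans ?_
    have h4 : (Y : ℝ) ≤ p := by exact_mod_cast hYp.le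
    have h5 : (T : ℝ) / p ≤ T / Y :=
      div_le_div_of_nonneg_left (Nat.cast_nonneg T) (by exact_mod_cast hY) h4
    linarith
  · rw [nsmul_eq_mul]
    apply mul_le_mul_of_nonneg_right _ h0
    exact_mod_cast card_filter_le _ _

open Classical in
/-- squares of medium primes, for a fixed `v` -/
theorem bad2 {e : ℤ} {Q T Y P₁ j u₀ : ℕ} (hY : 1 ≤ Y)
    (hQp : ∀ p : ℕ, p.Prime → Y < p → ¬ p ∣ Q)
    (hep : ∀ p : ℕ, p.Prime → Y < p → ¬ (p : ℤ) ∣ 2 * e) :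
    ((((range T).filter (fun i => Nat.Coprime (1 + Q * (u₀ + i)) (Q * j) ∧ ∃ p : ℕ, p.Prime ∧
      Y < p ∧ p ≤ P₁ ∧ ((p ^ 2 : ℕ) : ℤ) ∣ qf e (1 + Q * (u₀ + i)) (Q * j))).card : ℕ) : ℝ) ≤
      3 * (T / Y + P₁) := by
  classical
  have hsub : (range T).filter (fun i => Nat.Coprime (1 + Q * (u₀ + i)) (Q * j) ∧ ∃ p : ℕ,
      p.Prime ∧ Y < p ∧ p ≤ P₁ ∧ ((p ^ 2 : ℕ) : ℤ) ∣ qf e (1 + Q * (u₀ + i)) (Q * j)) ⊆
      ((Ioc Y P₁).filter Nat.Prime).biUnion (fun p => (range T).filter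
        (fun i => Nat.Coprime (1 + Q * (u₀ + i)) (Q * j) ∧
          ((p ^ 2 : ℕ) : ℤ) ∣ qf e (1 + Q * (u₀ + i)) (Q * j))) := by
    intro u hu
    rw [mem_filter] at hu
    obtain ⟨hu1, hu2, p, hp, hYp, hpP, hdvd⟩ := hu
    rw [mem_biUnion]
    exact ⟨p, mem_filter.2 ⟨mem_Ioc.2 ⟨hYp, hpP⟩, hp⟩, mem_filter.2 ⟨hu1, hu2, hdvd⟩⟩
  have h1 := (card_le_card hsub).trans card_biUnion_le
  refine (Nat.cast_le (α := ℝ).2 h1).trans ?_
  rw [Nat.cast_sum]
  refine le_trans (sum_le_sum ?_) (sum_inv_sq hY (T : ℝ) (Nat.cast_nonneg T))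
  intro p hp
  rw [mem_filter, mem_Ioc] at hp
  obtain ⟨⟨hYp, -⟩, hp⟩ := hp
  have hpZ : Prime (p : ℤ) := Nat.prime_iff_prime_int.1 hp
  have hp1 : (p : ℤ) ∣ ((p ^ 2 : ℕ) : ℤ) := by
    push_cast
    exact dvd_pow_self _ two_ne_zero
  apply color2 hp (hep p hp hYp) _ (fun i => 1 + Q * (u₀ + i)) (fun _ => Q * j)
  · intro u hu
    rw [mem_filter] at hu
    exact ⟨hu.2.2, not_dvd_v hp hu.2.1 (hp1.trans hu.2.2)⟩
  · positivity
  · intro T' hT' hd
    have h3 := mult_count (F := T') (u₀ := 0) (T := T) (m := p ^ 2) (pow_pos hp.pos 2)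
      (fun u hu => by
        have := hT' hu
        rw [mem_filter, mem_range] at this
        omega)
      (fun u hu u' hu' => by
        have h4 := hd u hu u' hu'
        have h5 := hT' hu
        rw [mem_filter] at h5
        have hpv := not_dvd_v hp h5.2.1 (hp1.trans h5.2.2)
        have cop : ∀ z : ℕ, ¬ p ∣ z → IsCoprime (((p ^ 2 : ℕ) : ℤ)) (z : ℤ) := by
          intro z hz
          push_cast
          apply IsCoprime.pow_left
          exact (Prime.coprime_iff_not_dvd hpZ).2 (by intro h; exact hz (by exact_mod_cast h))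
        have e1 : ((1 + Q * (u₀ + u) : ℕ) : ℤ) * ((Q * j : ℕ) : ℤ) - ((1 + Q * (u₀ + u') : ℕ) : ℤ) *
            ((Q * j : ℕ) : ℤ) = ((u : ℤ) - u') * (Q : ℤ) * ((Q * j : ℕ) : ℤ) := by
          push_cast; ring
        have h6 : ((p ^ 2 : ℕ) : ℤ) ∣ ((u : ℤ) - u') * (Q : ℤ) * ((Q * j : ℕ) : ℤ) := by
          rw [← e1]; exact h4
        exact (cop Q (hQp p hp hYp)).dvd_of_dvd_mul_right
          ((cop _ hpv).dvd_of_dvd_mul_right h6))
    push_cast at h3 ⊢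
    exact h3

open Classical in
/-- the number of `i` for a fixed `j` -/
theorem sieve6 : ∃ c₀ : ℕ, ∃ c : ℝ, 0 < c ∧ ∀ (es : Finset ℤ) (Q Y J T j u₀ : ℕ), es.card ≤ 3 →
    (∀ p : ℕ, p.Prime → p ≤ 12 → p ∣ Q) → Y < 2 ^ 2 ^ J →
    (T : ℝ) / 2 * (c / 2 ^ J) ^ 12 - ((2 : ℝ) ^ 2 ^ J) ^ (c₀ * 6) ≤
      (((range T).filter (fun n => ∀ p : ℕ, p.Prime → p ≤ Y → ∀ e ∈ es,
        ¬ (p : ℤ) ∣ qf e (1 + Q * (u₀ + n)) (Q * j))).card : ℝ) := by
  classical
  obtain ⟨c₀, c, hc, hS⟩ := sieve_gen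
  refine ⟨c₀, c, hc, ?_⟩
  intro es Q Y J T j u₀ hes hQ12 hJ
  set P : ℕ → ℕ → Prop := fun l n => ¬ l ∣ Q ∧
    ∃ e ∈ es, (l : ℤ) ∣ qf e (1 + Q * (u₀ + n)) (Q * j) with hP
  have hshift : ∀ l ∈ Pr 6 J, ∀ n, P l (n + l) ↔ P l n := by
    intro l _ n
    simp only [hP]
    refine and_congr_right fun _ => exists_congr fun e => and_congr_right fun _ => ?_
    have h1 : (l : ℤ) ∣ qf e (1 + Q * (u₀ + (n + l))) (Q * j) -
        qf e (1 + Q * (u₀ + n)) (Q * j) := by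
      unfold qf
      refine ⟨Q * (2 * (1 + Q * (u₀ + n)) + Q * l), by push_cast; ring⟩
    constructor
    · intro h
      have := dvd_sub h h1
      rwa [sub_sub_cancel] at this
    · intro h
      have := dvd_add h h1
      rwa [add_sub_cancel] at this
  have h := hS 6 (by norm_num) P J hshift (by
    intro l hl
    by_cases hlQ : l ∣ Q
    · rw [filter_false_of_mem (fun n _ h => h.1 hlQ)]
      simp
    · have hsub : (range l).filter (P l) ⊆ es.biUnion (fun e =>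
          (range l).filter (fun n : ℕ => (l : ℤ) ∣ qf e (1 + Q * (u₀ + n)) (Q * j))) := by
        intro n hn
        rw [mem_filter] at hn
        obtain ⟨hn1, hn2, e, he, hd⟩ := hn
        rw [mem_biUnion]
        exact ⟨e, he, mem_filter.2 ⟨hn1, hd⟩⟩
      refine ((card_le_card hsub).trans card_biUnion_le).trans ?_
      refine (sum_le_card_nsmul _ _ 2 fun e _ => two (prime_of_mem_Pr hl) e Q u₀ j hlQ).trans ?_
      rw [smul_eq_mul]
      omega) T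
  refine h.trans ?_
  rw [Nat.cast_le]
  apply card_le_card
  intro n hn
  rw [mem_filter] at hn ⊢
  obtain ⟨hn1, hn2⟩ := hn
  refine ⟨hn1, ?_⟩
  intro p hp hpY e he hdvd
  by_cases hpQ : p ∣ Q
  · have hpQ' : (p : ℤ) ∣ Q := by exact_mod_cast hpQ
    have h2 : (p : ℤ) ∣ qf e (1 + Q * (u₀ + n)) (Q * j) - 1 := by
      have : qf e (1 + Q * (u₀ + n)) (Q * j) - 1 =
          Q * ((u₀ + n) * (2 + Q * (u₀ + n)) - e * Q * j ^ 2) := by
        unfold qf; push_cast; ring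
      rw [this]
      exact hpQ'.mul_right _
    have h3 := dvd_sub hdvd h2
    rw [sub_sub_cancel] at h3
    exact (Nat.prime_iff_prime_int.1 hp).not_isUnit (isUnit_of_dvd_one h3)
  · have hmem : p ∈ Pr 6 J := by
      unfold Pr
      rw [mem_filter, mem_range]
      refine ⟨by omega, hp, ?_⟩
      by_contra hcon
      exact hpQ (hQ12 p hp (by omega))
    exact hn2 p hmem ⟨hpQ, e, he, hdvd⟩

end Pool.Agent.TH646.RT.Win
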