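import Pool.Agent.TH646.RT.WinComb

set_option autoImplicit false

namespace Pool.Agent.TH646.RT.Win

open Pool.Agent.TH562.R2 (qf FZ)

/-- the form -/
noncomputable def F (h a b c u v : ℝ) : ℝ :=
  h * ((u ^ 2 - a * v ^ 2) * (u ^ 2 - b * v ^ 2) * (u ^ 2 - c * v ^ 2))

theorem FZ_eq (h : ℕ) (a b c : ℤ) (u v : ℕ) : (FZ h a b c u v : ℝ) = F h a b c u v := by
  unfold FZ F; push_cast; ring

theorem fac {K e u v : ℝ} (hK : 1 ≤ K) (he : |e| ≤ K) (hv : 0 ≤ v) (huv : 2 * K * v ≤ u) :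
    3 / 4 * u ^ 2 ≤ u ^ 2 - e * v ^ 2 ∧ u ^ 2 - e * v ^ 2 ≤ 5 / 4 * u ^ 2 := by
  have h1 : |e * v ^ 2| * 4 ≤ u ^ 2 := by
    rw [abs_mul, abs_of_nonneg (by positivity : (0 : ℝ) ≤ v ^ 2)]
    have h2 : (2 * K * v) ^ 2 ≤ u ^ 2 := pow_le_pow_left₀ (by positivity) huv 2
    have h3 : |e| * v ^ 2 ≤ K * v ^ 2 := mul_le_mul_of_nonneg_right he (by positivity)
    have h4 : K * v ^ 2 ≤ K * (K * v ^ 2) := le_mul_of_one_le_left (by positivity) hK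
    nlinarith
  have h5 := abs_le.1 (le_refl |e * v ^ 2|)
  constructor <;> linarith [h5.1, h5.2]

theorem F_size {K h a b c u v : ℝ} (hh : 0 ≤ h) (hK : 1 ≤ K) (ha : |a| ≤ K) (hb : |b| ≤ K)
    (hc : |c| ≤ K) (hv : 0 ≤ v) (huv : 2 * K * v ≤ u) :
    27 / 64 * (h * u ^ 6) ≤ F h a b c u v ∧ F h a b c u v ≤ 2 * (h * u ^ 6) := by
  obtain ⟨a1, a2⟩ := fac hK ha hv huv
  obtain ⟨b1, b2⟩ := fac hK hb hv huv
  obtain ⟨c1, c2⟩ := fac hK hc hv huv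
  have hu2 : 0 ≤ u ^ 2 := sq_nonneg u
  have p1 : 0 ≤ 3 / 4 * u ^ 2 := by positivity
  have hA := p1.trans a1
  have hB := p1.trans b1
  have hC := p1.trans c1
  have m1 : (3 / 4 * u ^ 2) * (3 / 4 * u ^ 2) * (3 / 4 * u ^ 2) ≤
      (u ^ 2 - a * v ^ 2) * (u ^ 2 - b * v ^ 2) * (u ^ 2 - c * v ^ 2) := by gcongr
  have m2 : (u ^ 2 - a * v ^ 2) * (u ^ 2 - b * v ^ 2) * (u ^ 2 - c * v ^ 2) ≤
      (5 / 4 * u ^ 2) * (5 / 4 * u ^ 2) * (5 / 4 * u ^ 2) := by gcongr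
  have n1 := mul_le_mul_of_nonneg_left m1 hh
  have n2 := mul_le_mul_of_nonneg_left m2 hh
  have hu6 : 0 ≤ h * u ^ 6 := by positivity
  unfold F
  constructor
  · refine le_trans (le_of_eq ?_) n1
    ring
  · refine n2.trans ?_
    have : h * (5 / 4 * u ^ 2 * (5 / 4 * u ^ 2) * (5 / 4 * u ^ 2)) = 125 / 64 * (h * u ^ 6) := by
      ring
    linarith

theorem F_step {K h a b c u v s : ℝ} (hh : 0 ≤ h) (hK : 1 ≤ K) (ha : |a| ≤ K) (hb : |b| ≤ K)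
    (hc : |c| ≤ K) (hv : 0 ≤ v) (huv : 2 * K * v ≤ u) (hs : 0 ≤ s) :
    F h a b c u v ≤ F h a b c (u + s) v ∧
      F h a b c (u + s) v ≤ F h a b c u v + 24 * h * s * (u + s) ^ 5 := by
  obtain ⟨a1, -⟩ := fac hK ha hv huv
  obtain ⟨b1, -⟩ := fac hK hb hv huv
  obtain ⟨c1, -⟩ := fac hK hc hv huv
  have hu0 : 0 ≤ u := le_trans (by positivity) huv
  obtain ⟨-, a2⟩ := fac hK ha hv (huv.trans (by linarith : u ≤ u + s))
  obtain ⟨-, b2⟩ := fac hK hb hv (huv.trans (by linarith : u ≤ u + s))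
  obtain ⟨-, c2⟩ := fac hK hc hv (huv.trans (by linarith : u ≤ u + s))
  have hu2 : 0 ≤ 3 / 4 * u ^ 2 := by positivity
  have hw2 : 0 ≤ (u + s) ^ 2 := by positivity
  set A := u ^ 2 - a * v ^ 2 with hA
  set B := u ^ 2 - b * v ^ 2 with hB
  set C := u ^ 2 - c * v ^ 2 with hC
  set A' := (u + s) ^ 2 - a * v ^ 2 with hA'
  set B' := (u + s) ^ 2 - b * v ^ 2 with hB'
  set C' := (u + s) ^ 2 - c * v ^ 2 with hC'
  have hA0 : 0 ≤ A := hu2.trans a1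
  have hB0 : 0 ≤ B := hu2.trans b1
  have hC0 : 0 ≤ C := hu2.trans c1
  set D := s * (2 * u + s) with hD
  have hD0 : 0 ≤ D := by positivity
  have hAD : A' = A + D := by rw [hA, hA', hD]; ring
  have hBD : B' = B + D := by rw [hB, hB', hD]; ring
  have hCD : C' = C + D := by rw [hC, hC', hD]; ring
  have hD2 : D ≤ 2 * s * (u + s) := by
    rw [hD]
    nlinarith
  have hAw : A ≤ 2 * (u + s) ^ 2 := by linarith
  have hBw : B ≤ 2 * (u + s) ^ 2 := by linarith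
  have hBw' : B' ≤ 2 * (u + s) ^ 2 := by linarith
  have hCw' : C' ≤ 2 * (u + s) ^ 2 := by linarith
  have hB'0 : 0 ≤ B' := by linarith
  have hC'0 : 0 ≤ C' := by linarith
  have e1 : A' * B' * C' - A * B * C = D * (B' * C' + A * C' + A * B) := by
    rw [hAD, hBD, hCD]; ring
  have g1 : 0 ≤ D * (B' * C' + A * C' + A * B) := by positivity
  have g2 : D * (B' * C' + A * C' + A * B) ≤ 24 * s * (u + s) ^ 5 := by
    calc D * (B' * C' + A * C' + A * B) ≤ (2 * s * (u + s)) *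
        ((2 * (u + s) ^ 2) * (2 * (u + s) ^ 2) + (2 * (u + s) ^ 2) * (2 * (u + s) ^ 2) +
          (2 * (u + s) ^ 2) * (2 * (u + s) ^ 2)) := by gcongr
      _ = 24 * s * (u + s) ^ 5 := by ring
  have eF : F h a b c u v = h * (A * B * C) := rfl
  have eF' : F h a b c (u + s) v = h * (A' * B' * C') := rfl
  rw [eF, eF']
  have e2 : A' * B' * C' = A * B * C + D * (B' * C' + A * C' + A * B) := by linarith
  rw [e2, mul_add]
  constructor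
  · have := mul_nonneg hh g1
    linarith
  · have := mul_le_mul_of_nonneg_left g2 hh
    linarith

theorem window {K : ℕ} (hK : 1 ≤ K) {a b c : ℤ} (ha : |a| ≤ K) (hb : |b| ≤ K) (hc : |c| ≤ K)
    {h Q : ℕ} (hh : 1 ≤ h) (hQ : 0 < Q) {X H s : ℝ} (hX : X = h * s ^ 6)
    (hs : 100 * ((Q : ℝ) + 1) ≤ s) {j T : ℕ} (hj : 4 * (K : ℝ) * (Q * j) ≤ s)
    (hT : 24576 * (h : ℝ) * Q * s ^ 5 * T ≤ H) (hQT : (Q : ℝ) * T ≤ s) :
    ∃ w₀ : ℕ, ∀ n < T, 2 * K * (Q * j) ≤ 1 + Q * (w₀ + n) ∧ 2 ≤ 1 + Q * (w₀ + n) ∧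
      ((1 + Q * (w₀ + n) : ℕ) : ℝ) ≤ 4 * s ∧
      X ≤ (FZ h a b c (1 + Q * (w₀ + n)) (Q * j) : ℝ) ∧
      (FZ h a b c (1 + Q * (w₀ + n)) (Q * j) : ℝ) ≤ X + H := by
  classical
  have hKr : (1 : ℝ) ≤ K := by exact_mod_cast hK
  have hhr : (1 : ℝ) ≤ h := by exact_mod_cast hh
  have hh0 : (0 : ℝ) ≤ h := by linarith
  have hQr : (1 : ℝ) ≤ Q := by exact_mod_cast hQ
  have har : |(a : ℝ)| ≤ K := by exact_mod_cast ha
  have hbr : |(b : ℝ)| ≤ K := by exact_mod_cast hb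
  have hcr : |(c : ℝ)| ≤ K := by exact_mod_cast hc
  have hs0 : 0 < s := by linarith
  set v : ℝ := ((Q * j : ℕ) : ℝ) with hv
  have hv0 : 0 ≤ v := by rw [hv]; positivity
  have hvs : 2 * (K : ℝ) * v ≤ s / 2 := by
    rw [hv]; push_cast; linarith
  have hX0 : 0 < X := by rw [hX]; positivity
  set P : ℕ → Prop := fun i => s / 2 ≤ ((1 + Q * i : ℕ) : ℝ) ∧
    X ≤ F h a b c ((1 + Q * i : ℕ) : ℝ) v with hP
  -- a point
  set i₁ : ℕ := ⌈2 * s / Q⌉₊ with hi₁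
  have hi1a : 2 * s ≤ Q * (i₁ : ℝ) := by
    have := Nat.le_ceil (2 * s / Q)
    rw [div_le_iff₀ (by linarith)] at this
    linarith
  have hi1b : (Q : ℝ) * i₁ ≤ 2 * s + Q := by
    have h1 := (Nat.ceil_lt_add_one (by positivity : 0 ≤ 2 * s / (Q : ℝ))).le
    have h2 := mul_le_mul_of_nonneg_left h1 (by linarith : (0 : ℝ) ≤ Q)
    have h3 : (Q : ℝ) * (2 * s / Q + 1) = 2 * s + Q := by field_simp
    linarith
  have hPi : P i₁ := by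
    have hu : 2 * s ≤ ((1 + Q * i₁ : ℕ) : ℝ) := by push_cast; linarith
    refine ⟨by linarith, ?_⟩
    have h1 := (F_size (u := ((1 + Q * i₁ : ℕ) : ℝ)) hh0 hKr har hbr hcr hv0 (by linarith)).1
    have h2 : (2 * s) ^ 6 ≤ ((1 + Q * i₁ : ℕ) : ℝ) ^ 6 := pow_le_pow_left₀ (by positivity) hu 6
    have h3 := mul_le_mul_of_nonneg_left h2 hh0
    have h4 : (h : ℝ) * (2 * s) ^ 6 = 64 * X := by rw [hX]; ring
    linarith
  have hex : ∃ i, P i := ⟨i₁, hPi⟩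
  obtain ⟨w₀, hw1, hw2⟩ : ∃ w₀, P w₀ ∧ ∀ i < w₀, ¬ P i :=
    ⟨Nat.find hex, Nat.find_spec hex, fun i hi => Nat.find_min hex hi⟩
  have hwi : w₀ ≤ i₁ := by
    by_contra hcon
    exact hw2 i₁ (by omega) hPi
  have hu3 : ((1 + Q * w₀ : ℕ) : ℝ) ≤ 3 * s := by
    have h1 : (Q : ℝ) * w₀ ≤ Q * i₁ := mul_le_mul_of_nonneg_left (by exact_mod_cast hwi)
      (by linarith)
    push_cast
    linarith
  have hw0 : 0 < w₀ := by
    rcases Nat.eq_zero_or_pos w₀ with h0 | h0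
    · exfalso
      have := hw1.1
      rw [h0] at this
      push_cast at this
      linarith
    · exact h0
  obtain ⟨i', rfl⟩ : ∃ i', w₀ = i' + 1 := ⟨w₀ - 1, by omega⟩
  have hni := hw2 i' (by omega)
  have hcast : ((1 + Q * (i' + 1) : ℕ) : ℝ) = ((1 + Q * i' : ℕ) : ℝ) + Q := by push_cast; ring
  have hlow : s / 2 ≤ ((1 + Q * i' : ℕ) : ℝ) ∧ F h a b c ((1 + Q * i' : ℕ) : ℝ) v < X := by
    by_cases h1 : s / 2 ≤ ((1 + Q * i' : ℕ) : ℝ)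
    · refine ⟨h1, ?_⟩
      by_contra hcon
      push Not at hcon
      exact hni ⟨h1, hcon⟩
    · exfalso
      push Not at h1
      obtain ⟨g1, g2⟩ := hw1
      have h2 : ((1 + Q * (i' + 1) : ℕ) : ℝ) ≤ 3 / 4 * s := by
        rw [hcast]; linarith
      have h3 := (F_size (u := ((1 + Q * (i' + 1) : ℕ) : ℝ)) hh0 hKr har hbr hcr hv0
        (by linarith)).2
      have h4 : ((1 + Q * (i' + 1) : ℕ) : ℝ) ^ 6 ≤ (3 / 4 * s) ^ 6 :=
        pow_le_pow_left₀ (Nat.cast_nonneg _) h2 6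
      have h5 := mul_le_mul_of_nonneg_left h4 hh0
      have h6 : (h : ℝ) * (3 / 4 * s) ^ 6 = 729 / 4096 * X := by rw [hX]; ring
      linarith
  obtain ⟨hl1, hl2⟩ := hlow
  refine ⟨i' + 1, fun n hn => ?_⟩
  have hn' : (n : ℝ) + 1 ≤ T := by exact_mod_cast hn
  have hn0 : (0 : ℝ) ≤ n := Nat.cast_nonneg n
  have hc1 : ((1 + Q * (i' + 1 + n) : ℕ) : ℝ) = ((1 + Q * i' : ℕ) : ℝ) + Q * (n + 1) := by
    push_cast; ring
  have hc2 : ((1 + Q * (i' + 1 + n) : ℕ) : ℝ) = ((1 + Q * (i' + 1) : ℕ) : ℝ) + Q * n := by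
    push_cast; ring
  have hQn : (Q : ℝ) * (n + 1) ≤ Q * T := mul_le_mul_of_nonneg_left hn' (by linarith)
  have hQn' : (Q : ℝ) * n ≤ Q * T := by linarith
  have hup : ((1 + Q * (i' + 1 + n) : ℕ) : ℝ) ≤ 4 * s := by rw [hc2]; linarith
  have hlo : s / 2 ≤ ((1 + Q * (i' + 1 + n) : ℕ) : ℝ) := by
    rw [hc1]
    have : (0 : ℝ) ≤ Q * ((n : ℝ) + 1) := by positivity
    linarith
  refine ⟨?_, ?_, hup, ?_, ?_⟩
  · have h1 : ((2 * K * (Q * j) : ℕ) : ℝ) ≤ ((1 + Q * (i' + 1 + n) : ℕ) : ℝ) := by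
      have h2 : ((2 * K * (Q * j) : ℕ) : ℝ) = 2 * K * v := by rw [hv]; push_cast; ring
      rw [h2]; linarith
    exact_mod_cast h1
  · have h1 : ((2 : ℕ) : ℝ) ≤ ((1 + Q * (i' + 1 + n) : ℕ) : ℝ) := by
      push_cast at hlo ⊢
      linarith
    exact_mod_cast h1
  · rw [FZ_eq, hc2]
    have h1 := (F_step (u := ((1 + Q * (i' + 1) : ℕ) : ℝ)) (s := (Q : ℝ) * n) hh0 hKr har hbr hcr
      hv0 (by linarith [hw1.1]) (by positivity)).1
    exact hw1.2.trans h1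
  · rw [FZ_eq]
    have h1 := (F_step (u := ((1 + Q * i' : ℕ) : ℝ)) (s := (Q : ℝ) * (n + 1)) hh0 hKr har hbr hcr
      hv0 (by linarith) (by positivity)).2
    rw [← hc1] at h1
    have h2 : 24 * (h : ℝ) * (Q * (n + 1)) * ((1 + Q * (i' + 1 + n) : ℕ) : ℝ) ^ 5 ≤
        24 * h * (Q * T) * (4 * s) ^ 5 := by gcongr
    have h3 : 24 * (h : ℝ) * (Q * T) * (4 * s) ^ 5 = 24576 * (h : ℝ) * Q * s ^ 5 * T := by ring
    have h4 : F (h : ℝ) a b c ((1 + Q * i' : ℕ) : ℝ) v < X := hl2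
    linarith

end Pool.Agent.TH646.RT.Win
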