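import Pool.Agent.TH646.RT.WinF
import Pool.Agent.TH646.RT.Main

set_option autoImplicit false

open Finset Filter

namespace Pool.Agent.TH646.RT.Win

open Pool.Agent.TH562.R2 (qf GoodS FZ)
open Pool.Agent.TH646.AT (omega_le)
open Pool.Agent.TH646.RT (ev_log)

/-- the final computation -/
theorem numW {s t x ℓ c₂ K Q V E Y w P₁ U bad1 bad2 bad3 S r : ℝ} (hs : 1 ≤ s) (ht : 0 < t)
    (hx : 1 ≤ x) (hℓ : 1 ≤ ℓ) (hc₂ : 0 < c₂) (hK : 1 ≤ K) (hQ : 1 ≤ Q) (hxt : x ≤ t)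
    (hV0 : 0 ≤ V) (hVs : V ≤ s) (hV : s ≤ 8 * K * Q * V) (hYx : x ≤ 2 * Y)
    (hw : w ≤ 2 * ℓ) (hw0 : 0 ≤ w) (hP1 : t / x ≤ P₁) (hP2 : P₁ ≤ 2 * (t / x))
    (hU0 : 0 ≤ U) (hU : U ≤ 4 * s) (hsq : s ≤ (t / x) ^ 2)
    (hE : t * (c₂ / ℓ ^ 12) - t / x ≤ E)
    (hb1 : bad1 = V * (w * (t / Y + 1))) (hb2 : bad2 = 3 * (V * (3 * (t / Y + P₁))))
    (hb3 : bad3 = 3 * (3 * (U ^ 2 / P₁ + 2 * U)))
    (hmain : V * E ≤ bad1 + bad2 + bad3 + r * S)
    (hbig : 8256 * K * Q / c₂ * ℓ ^ 13 ≤ x) :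
    s * t * c₂ ≤ 32 * K * Q * ℓ ^ 12 * (r * S) := by
  have hx0 : 0 < x := by linarith
  have hY0 : 0 < Y := by linarith
  have hℓ0 : 0 < ℓ := by linarith
  have hK0 : 0 < K := by linarith
  have hQ0 : 0 < Q := by linarith
  have hs0 : 0 < s := by linarith
  set q : ℝ := t / x with hq
  have hq0 : 0 < q := by positivity
  have hqx : q * x = t := by rw [hq]; field_simp
  have hq1 : 1 ≤ q := by rw [hq, one_le_div hx0]; exact hxt
  have hP0 : 0 < P₁ := by linarith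
  have htY : t / Y ≤ 2 * q := by
    rw [div_le_iff₀ hY0, ← hqx]
    nlinarith
  have hb1' : bad1 ≤ s * (6 * ℓ * q) := by
    rw [hb1]
    have h1 : t / Y + 1 ≤ 3 * q := by linarith
    calc V * (w * (t / Y + 1)) ≤ s * ((2 * ℓ) * (3 * q)) := by
          have h0 : 0 ≤ t / Y + 1 := by positivity
          gcongr
      _ = s * (6 * ℓ * q) := by ring
  have hb2' : bad2 ≤ s * (36 * q) := by
    rw [hb2]
    have h1 : t / Y + P₁ ≤ 4 * q := by linarith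
    have h0 : 0 ≤ t / Y + P₁ := by positivity
    calc 3 * (V * (3 * (t / Y + P₁))) ≤ 3 * (s * (3 * (4 * q))) := by gcongr
      _ = s * (36 * q) := by ring
  have hb3' : bad3 ≤ s * (216 * q) := by
    rw [hb3]
    have h1 : U ^ 2 / P₁ ≤ 16 * s * q := by
      rw [div_le_iff₀ hP0]
      calc U ^ 2 ≤ (4 * s) ^ 2 := pow_le_pow_left₀ hU0 hU 2
        _ = 16 * s * s := by ring
        _ ≤ 16 * s * (q ^ 2) := mul_le_mul_of_nonneg_left hsq (by positivity)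
        _ = 16 * s * q * q := by ring
        _ ≤ 16 * s * q * P₁ := mul_le_mul_of_nonneg_left hP1 (by positivity)
    have h2 : 2 * U ≤ 8 * s * q := by
      have h3 : s * 1 ≤ s * q := mul_le_mul_of_nonneg_left hq1 hs0.le
      linarith
    have h4 : U ^ 2 / P₁ + 2 * U ≤ 24 * s * q := by linarith
    linarith
  have hsum : bad1 + bad2 + bad3 ≤ 258 * ℓ * (s * q) := by
    have h1 : 1 * (s * q) ≤ ℓ * (s * q) := mul_le_mul_of_nonneg_right hℓ (by positivity)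
    linarith
  set e : ℝ := c₂ / ℓ ^ 12 with he
  have he0 : 0 < e := by positivity
  have hbig2 : 8256 * K * Q * ℓ ≤ x * e := by
    rw [he, mul_div_assoc', le_div_iff₀ (by positivity)]
    have h1 := mul_le_mul_of_nonneg_right hbig hc₂.le
    have h2 : 8256 * K * Q / c₂ * ℓ ^ 13 * c₂ = 8256 * K * Q * ℓ * ℓ ^ 12 := by
      field_simp
    linarith
  have hbig3 : 8256 * K * Q * ℓ * q ≤ t * e := by
    calc 8256 * K * Q * ℓ * q ≤ (x * e) * q := mul_le_mul_of_nonneg_right hbig2 hq0.le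
      _ = t * e := by rw [← hqx]; ring
  have h2q : 2 * q ≤ t * e := by
    refine le_trans ?_ hbig3
    have h1 : (1 : ℝ) * 1 * 1 ≤ K * Q * ℓ := by gcongr
    have h2 : 1 * q ≤ K * Q * ℓ * q := mul_le_mul_of_nonneg_right (by linarith) hq0.le
    linarith
  have hEl : t * e / 2 ≤ E := by linarith
  have hVE : s * (t * e / 2) ≤ 8 * K * Q * (V * E) := by
    have h1 : s * (t * e / 2) ≤ (8 * K * Q * V) * (t * e / 2) :=
      mul_le_mul_of_nonneg_right hV (by positivity)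
    have h2 : (8 * K * Q * V) * (t * e / 2) ≤ (8 * K * Q * V) * E :=
      mul_le_mul_of_nonneg_left hEl (by positivity)
    linarith
  have hsum2 : 32 * K * Q * (bad1 + bad2 + bad3) ≤ s * (t * e) := by
    have h1 := mul_le_mul_of_nonneg_left hsum (by positivity : 0 ≤ 32 * K * Q)
    have h2 := mul_le_mul_of_nonneg_left hbig3 hs0.le
    linarith
  have hfin : s * (t * e) ≤ 32 * K * Q * (r * S) := by
    have h1 := mul_le_mul_of_nonneg_left hmain (by positivity : 0 ≤ 32 * K * Q)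
    have h2 : 4 * (s * (t * e / 2)) ≤ 32 * K * Q * (V * E) := by linarith
    have h3 : 32 * K * Q * (bad1 + bad2 + bad3 + r * S) =
      32 * K * Q * (bad1 + bad2 + bad3) + 32 * K * Q * (r * S) := by ring
    linarith
  have h1 := mul_le_mul_of_nonneg_right hfin (by positivity : 0 ≤ ℓ ^ 12)
  have h2 : s * (t * e) * ℓ ^ 12 = s * t * c₂ := by rw [he]; field_simp
  linarith

/-- the counting set -/
def SW (h R : ℕ) (X H : ℝ) (PP : ℕ → Prop) : Set ℕ :=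
  {d : ℕ | X ≤ (h * d : ℕ) ∧ ((h * d : ℕ) : ℝ) ≤ X + H ∧ PP d ∧ d.primeFactors.card ≤ R ∧
    ∀ p : ℕ, p.Prime → p ∣ d → X ^ (1 / (R : ℝ)) < p}

open Classical in
theorem coreW {h : ℕ} (hh : 1 ≤ h) {a b c : ℤ} (ha0 : a ≠ 0) (hb0 : b ≠ 0) (hc0 : c ≠ 0)
    (hab : a ≠ b) (Z : ℕ) {M : ℕ} (hM : 0 < M) {θ : ℝ} (hθ : 11 / 12 < θ) (hθ1 : θ ≤ 1) :
    ∃ W Q : ℕ, Z ≤ W ∧ M ∣ Q ∧ (∀ p : ℕ, p.Prime → p ≤ W → p ∣ Q) ∧
      ∃ R : ℕ, 0 < R ∧ ∃ X₀ : ℝ, ∀ PP : ℕ → Prop, (∀ d, PP d → Squarefree d) →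
      (∀ i j : ℕ, 0 < Q * j → GoodS Q W {a, b, c} (i, j) → 1 < qf a (1 + Q * i) (Q * j) →
        1 < qf b (1 + Q * i) (Q * j) → 1 < qf c (1 + Q * i) (Q * j) →
        ∃ d : ℕ, ((h * d : ℕ) : ℤ) = FZ h a b c (1 + Q * i) (Q * j) ∧ PP d) →
      ∀ X : ℝ, X₀ ≤ X → X ^ (θ - 2 / 3) / Real.log X ^ 13 ≤
        (((SW h R X (X ^ θ) PP).ncard : ℕ) : ℝ) := by
  obtain ⟨c₀, κ, hκ, hS⟩ := sieve6
  obtain ⟨K, hKd⟩ : ∃ K : ℕ, K = a.natAbs + b.natAbs + c.natAbs + 1 := ⟨_, rfl⟩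
  obtain ⟨W, hWd⟩ : ∃ W : ℕ, W = Z + M + 12 := ⟨_, rfl⟩
  obtain ⟨Q, hQd⟩ : ∃ Q : ℕ, Q = W.factorial := ⟨_, rfl⟩
  have hQ : 0 < Q := by rw [hQd]; exact Nat.factorial_pos W
  have hMQ : M ∣ Q := by rw [hQd]; exact Nat.dvd_factorial hM (by omega)
  have hQW' : ∀ p : ℕ, p.Prime → p ≤ W → p ∣ Q := fun p hp hpW => by
    rw [hQd]; exact (hp.dvd_factorial).2 hpW
  have hQ12 : ∀ p : ℕ, p.Prime → p ≤ 12 → p ∣ Q := fun p hp h12 => hQW' p hp (by omega)
  have haK : |a| ≤ (K : ℤ) := by rw [Int.abs_eq_natAbs]; omega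
  have hbK : |b| ≤ (K : ℤ) := by rw [Int.abs_eq_natAbs]; omega
  have hcK : |c| ≤ (K : ℤ) := by rw [Int.abs_eq_natAbs]; omega
  obtain ⟨n, hnd⟩ : ∃ n : ℕ, n = 12 * c₀ + 4 := ⟨_, rfl⟩
  set c₂ : ℝ := κ ^ 12 / 8192 with hc₂
  have hc₂0 : 0 < c₂ := by positivity
  have hn0 : (0 : ℝ) < n := by rw [hnd]; positivity
  set δ : ℝ := (θ - 11 / 12) / n with hδ
  have hδ0 : 0 < δ := div_pos (by linarith) hn0
  obtain ⟨R, hRd⟩ : ∃ R : ℕ, R = ⌈2 / δ⌉₊ + 1 := ⟨_, rfl⟩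
  have hK1 : 1 ≤ K := by omega
  have hKr : (1 : ℝ) ≤ K := by exact_mod_cast hK1
  have hQr : (1 : ℝ) ≤ Q := by exact_mod_cast hQ
  have hhr : (1 : ℝ) ≤ h := by exact_mod_cast hh
  have hR0 : (0 : ℝ) < R := by
    have : 0 < R := by omega
    exact_mod_cast this
  have hRδ : 2 / δ ≤ (R : ℝ) := by
    refine (Nat.le_ceil _).trans ?_
    exact_mod_cast (by omega : ⌈2 / δ⌉₊ ≤ R)
  set r : ℝ := ((2 ^ R * 2 ^ R : ℕ) : ℝ) with hr
  have hr0 : 0 < r := by rw [hr]; positivity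
  set D₂ : ℝ := 1572864 * (h : ℝ) ^ 2 * Q ^ 2 * K * r / c₂ with hD₂
  have hD₂0 : 0 ≤ D₂ := by positivity
  set B : ℝ := 49152 * (h : ℝ) * Q * K + W + 100 with hB
  have hWr : (0 : ℝ) ≤ W := Nat.cast_nonneg W
  obtain ⟨X₀, hX₀⟩ := ((ev_log (8256 * K * Q / c₂) δ hδ0).and
    ((Real.tendsto_log_atTop.eventually_ge_atTop (D₂ + 1)).and
    (((tendsto_rpow_atTop (show (0 : ℝ) < 1 / 12 by norm_num)).eventually_ge_atTop
      (1000 * B)).and
    ((tendsto_rpow_atTop hδ0).eventually_ge_atTop (4 * B))))).exists_forall_of_atTop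
  refine ⟨W, Q, by omega, hMQ, hQW', R, by omega, max X₀ 2, ?_⟩
  intro PP hPPs hPP X hXX
  have hXX0 : X₀ ≤ X := (le_max_left _ _).trans hXX
  have hX2 : 2 ≤ X := (le_max_right _ _).trans hXX
  obtain ⟨e1, e2, e3, e4⟩ := hX₀ X hXX0
  set L : ℝ := Real.log X with hL
  set x : ℝ := X ^ δ with hx
  set z : ℝ := X ^ (1 / 12 : ℝ) with hz
  set G : ℝ := X ^ (θ - 11 / 12) with hG
  set H : ℝ := X ^ θ with hH
  have hX0 : 0 < X := by linarith
  have hX1 : 1 ≤ X := by linarith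
  have hL1 : 1 ≤ L := by linarith
  have hL0 : 0 < L := by linarith
  have hp : 49152 * (1 : ℝ) * 1 * 1 ≤ 49152 * (h : ℝ) * Q * K := by gcongr
  have hBbig : 49252 ≤ B := by linarith
  have hz0 : 0 < z := by linarith
  have hx0 : 0 < x := by linarith
  have hx1 : 1 ≤ x := by linarith
  have hz1 : 1 ≤ z := by linarith
  have hz12 : z ^ 12 = X := by
    rw [hz, ← Real.rpow_natCast, ← Real.rpow_mul hX0.le]; norm_num
  have hxn : x ^ n = G := by
    rw [hx, ← Real.rpow_natCast, ← Real.rpow_mul hX0.le, hδ, div_mul_cancel₀ _ hn0.ne']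
  have hxi : ∀ i, i ≤ n → x ^ i ≤ G := fun i hi => (pow_le_pow_right₀ hx1 hi).trans hxn.le
  have hG0 : 0 < G := by positivity
  have hHG : H = z ^ 11 * G := by
    rw [hH, hz, hG, ← Real.rpow_natCast, ← Real.rpow_mul hX0.le, ← Real.rpow_add hX0]
    congr 1
    push_cast
    ring
  have hHX : H ≤ X := by
    calc H ≤ X ^ (1 : ℝ) := Real.rpow_le_rpow_of_exponent_le hX1 hθ1
      _ = X := Real.rpow_one X
  have hH0 : 0 < H := by positivity
  -- s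
  set s : ℝ := (X / h) ^ (1 / 6 : ℝ) with hs
  have hXh : 0 < X / h := by positivity
  have hs6 : s ^ 6 = X / h := by
    rw [hs, ← Real.rpow_natCast, ← Real.rpow_mul hXh.le]; norm_num
  have hs0 : 0 < s := by positivity
  have hXs : X = h * s ^ 6 := by rw [hs6]; field_simp
  have hsz : s ≤ z ^ 2 := by
    apply le_of_pow_le_pow_left₀ (n := 6) (by norm_num) (by positivity)
    rw [hs6, ← pow_mul, hz12]
    exact div_le_self hX0.le hhr
  have hzs : z ^ 2 ≤ h * s := by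
    apply le_of_pow_le_pow_left₀ (n := 6) (by norm_num) (by positivity)
    rw [← pow_mul, hz12, mul_pow, hs6]
    have h1 : (h : ℝ) ≤ (h : ℝ) ^ 6 := le_self_pow₀ hhr (by norm_num)
    calc X = h * (X / h) := by field_simp
      _ ≤ (h : ℝ) ^ 6 * (X / h) := mul_le_mul_of_nonneg_right h1 hXh.le
  have hsbig : 1000 * B ≤ h * s * 1 := by
    have h1 : z * 1 ≤ z * z := mul_le_mul_of_nonneg_left hz1 hz0.le
    have h2 : z ^ 2 = z * z := sq z
    linarith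
  have hzz : 1000 * B * z ≤ h * s := by
    have h1 := mul_le_mul_of_nonneg_right e3 hz0.le
    have h2 : z ^ 2 = z * z := sq z
    linarith
  have hsBz : 1000 * (Q * K + 1 : ℝ) ≤ s := by
    have hz2 : (h : ℝ) ≤ z := by
      have h3 : (h : ℝ) * 1 * 1 ≤ h * Q * K := by gcongr
      linarith
    have h1 : (Q : ℝ) * K + 1 ≤ B := by
      have h3 : 1 * (Q * K : ℝ) ≤ h * (Q * K) := mul_le_mul_of_nonneg_right hhr (by positivity)
      linarith
    have h2 : (h : ℝ) * (1000 * (Q * K + 1)) ≤ h * s := by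
      calc (h : ℝ) * (1000 * (Q * K + 1)) ≤ z * (1000 * B) := by gcongr
        _ = 1000 * B * z := by ring
        _ ≤ h * s := hzz
    exact le_of_mul_le_mul_left h2 (by linarith)
  -- T
  have hhQK : (h : ℝ) * Q * 1 ≤ h * Q * K := by gcongr
  have hB2 : 49152 * (h : ℝ) * Q ≤ B := by linarith
  set q₀ : ℝ := H / (24576 * h * Q * s ^ 5) with hq₀
  have hκ0 : 0 < 24576 * (h : ℝ) * Q * s ^ 5 := by positivity
  have hq00 : 0 ≤ q₀ := by positivity
  set T : ℕ := ⌊q₀⌋₊ with hT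
  have hTq : (T : ℝ) ≤ q₀ := Nat.floor_le hq00
  have hqT : q₀ < T + 1 := Nat.lt_floor_add_one _
  have hTH : 24576 * (h : ℝ) * Q * s ^ 5 * T ≤ H := by
    have := mul_le_mul_of_nonneg_left hTq hκ0.le
    rwa [hq₀, mul_div_cancel₀ _ hκ0.ne'] at this
  have hq0low : z * G / (24576 * h * Q) ≤ q₀ := by
    rw [hq₀, div_le_div_iff₀ (by positivity) hκ0]
    have h1 : s ^ 5 ≤ (z ^ 2) ^ 5 := pow_le_pow_left₀ hs0.le hsz 5
    have h2 : z * G * (24576 * h * Q * s ^ 5) = (z * G * (24576 * h * Q)) * s ^ 5 := by ring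
    rw [h2, hHG]
    calc (z * G * (24576 * h * Q)) * s ^ 5 ≤ (z * G * (24576 * h * Q)) * (z ^ 2) ^ 5 :=
          mul_le_mul_of_nonneg_left h1 (by positivity)
      _ = z ^ 11 * G * (24576 * h * Q) := by ring
  have hG1 : 1 ≤ G := by
    have := hxi 0 (Nat.zero_le _)
    rwa [pow_zero] at this
  have hzB : 49152 * (h : ℝ) * Q ≤ z := by linarith
  have hTlow : z * G ≤ 49152 * h * Q * T := by
    have h1 : 2 ≤ z * G / (24576 * h * Q) := by
      rw [le_div_iff₀ (by positivity)]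
      have h2 : z * 1 ≤ z * G := mul_le_mul_of_nonneg_left hG1 hz0.le
      linarith
    have h2 : q₀ ≤ 2 * T := by linarith
    have h3 : z * G / (24576 * h * Q) ≤ 2 * T := by linarith
    rw [div_le_iff₀ (by positivity)] at h3
    linarith
  have hTG : G ≤ T := by
    have h1 := mul_le_mul_of_nonneg_right hzB hG0.le
    exact le_of_mul_le_mul_left (h1.trans hTlow) (by positivity)
  have hT0 : (0 : ℝ) < T := by linarith
  have hQT : (Q : ℝ) * T ≤ s := by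
    have h1 : (h * s ^ 5) * (24576 * (Q * T)) ≤ (h * s ^ 5) * s := by
      calc (h * s ^ 5) * (24576 * (Q * T)) = 24576 * (h : ℝ) * Q * s ^ 5 * T := by ring
        _ ≤ X := hTH.trans hHX
        _ = (h * s ^ 5) * s := hXs.trans (by ring)
    have h2 := le_of_mul_le_mul_left h1 (by positivity)
    have h3 : 0 ≤ (Q : ℝ) * T := by positivity
    linarith
  -- V
  have h4KQ : 0 < 4 * (K : ℝ) * Q := by positivity
  set V : ℕ := ⌊s / (4 * K * Q)⌋₊ with hV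
  have hV1 : 4 * (K : ℝ) * Q * V ≤ s := by
    have h1 := Nat.floor_le (show 0 ≤ s / (4 * (K : ℝ) * Q) by positivity)
    rw [le_div_iff₀ h4KQ] at h1
    linarith
  have hV2 : s ≤ 8 * K * Q * V := by
    have h1 := Nat.lt_floor_add_one (s / (4 * (K : ℝ) * Q))
    rw [div_lt_iff₀ h4KQ] at h1
    linarith
  have hVs : (V : ℝ) ≤ s := by
    have h1 : (1 : ℝ) * 1 ≤ K * Q := by gcongr
    have h2 : 1 * (V : ℝ) ≤ (4 * K * Q) * V :=
      mul_le_mul_of_nonneg_right (by linarith) (Nat.cast_nonneg V)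
    linarith
  -- Y
  set Y : ℕ := ⌊x⌋₊ with hY
  have hY1 : (Y : ℝ) ≤ x := Nat.floor_le hx0.le
  have hY2 : x < Y + 1 := Nat.lt_floor_add_one _
  have hQB : (Q : ℝ) ≤ h * Q * K := by
    have : (1 : ℝ) * Q * 1 ≤ h * Q * K := by gcongr
    linarith
  have hKB : (K : ℝ) ≤ h * Q * K := by
    have : (1 : ℝ) * 1 * K ≤ h * Q * K := by gcongr
    linarith
  have hYbig : Q + 2 * K + 2 ≤ Y := by
    have : ((Q + 2 * K + 2 : ℕ) : ℝ) ≤ Y := by push_cast; linarith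
    exact_mod_cast this
  obtain ⟨J, hJ1, hJ2⟩ := Pool.Agent.H661R3.OP.SVA.exists_J (show 2 ≤ Y by omega)
  have hJx : ((2 : ℝ) ^ 2 ^ J) ≤ x ^ 2 := by
    have h1 : ((2 : ℝ) ^ 2 ^ J) ≤ (Y : ℝ) ^ 2 := by exact_mod_cast hJ2
    exact h1.trans (pow_le_pow_left₀ (by positivity) hY1 2)
  have hGX : G ≤ X := by
    calc G ≤ X ^ (1 : ℝ) := Real.rpow_le_rpow_of_exponent_le hX1 (by linarith)
      _ = X := Real.rpow_one X
  have hJL : (2 : ℝ) ^ J ≤ 2 * L := by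
    have h3 := Real.log_le_log (by positivity) ((hJx.trans (hxi 2 (by omega))).trans hGX)
    rw [Real.log_pow] at h3
    push_cast at h3
    have h4 := Real.log_two_gt_d9
    have h6 : (2 : ℝ) ^ J * (1 / 2) ≤ 2 ^ J * Real.log 2 :=
      mul_le_mul_of_nonneg_left (by linarith only [h4]) (by positivity)
    linarith only [h3, h6]
  -- P₁
  have hx2T : x * x ≤ T := by
    have := (hxi 2 (by omega)).trans hTG
    rwa [sq] at this
  have hxT : x ≤ T := by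
    have h1 : x * 1 ≤ x * x := mul_le_mul_of_nonneg_left hx1 hx0.le
    linarith
  have hq1 : 1 ≤ (T : ℝ) / x := by rw [one_le_div hx0]; exact hxT
  set P₁ : ℕ := ⌊(T : ℝ) / x⌋₊ + 1 with hP₁
  have hP1 : (T : ℝ) / x ≤ P₁ := by
    rw [hP₁]; push_cast; exact (Nat.lt_floor_add_one _).le
  have hP2 : (P₁ : ℝ) ≤ 2 * (T / x) := by
    rw [hP₁]; push_cast
    have := Nat.floor_le (show 0 ≤ (T : ℝ) / x by positivity)
    linarith
  have hYP : Y ≤ P₁ := by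
    have h1 : x ≤ (T : ℝ) / x := by rw [le_div_iff₀ hx0]; exact hx2T
    have : (Y : ℝ) ≤ P₁ := hY1.trans (h1.trans hP1)
    exact_mod_cast this
  have hsq : s ≤ ((T : ℝ) / x) ^ 2 := by
    refine hsz.trans (pow_le_pow_left₀ hz0.le ?_ 2)
    rw [le_div_iff₀ hx0]
    have h1 : x * (49152 * (h : ℝ) * Q) ≤ x * x := mul_le_mul_of_nonneg_left (by linarith) hx0.le
    have h2 : x * x ≤ G := by
      have := hxi 2 (by omega)
      rwa [sq] at this
    have h3 : z * (x * (49152 * (h : ℝ) * Q)) ≤ z * G :=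
      mul_le_mul_of_nonneg_left (h1.trans h2) hz0.le
    have h4 : (49152 * (h : ℝ) * Q) * (z * x) ≤ (49152 * (h : ℝ) * Q) * T := by linarith
    exact le_of_mul_le_mul_left h4 (by positivity)
  -- U
  set U : ℕ := ⌊4 * s⌋₊ with hU
  have hU1 : (U : ℝ) ≤ 4 * s := Nat.floor_le (by positivity)
  -- the windows
  have hwin : ∀ j : ℕ, ∃ w₀ : ℕ, 0 < j → j ≤ V → ∀ n < T, 2 * K * (Q * j) ≤ 1 + Q * (w₀ + n) ∧
      2 ≤ 1 + Q * (w₀ + n) ∧ 1 + Q * (w₀ + n) ≤ U ∧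
      ((⌈X⌉₊ : ℕ) : ℤ) ≤ FZ h a b c (1 + Q * (w₀ + n)) (Q * j) ∧
      FZ h a b c (1 + Q * (w₀ + n)) (Q * j) ≤ ((⌊X + H⌋₊ : ℕ) : ℤ) := by
    intro j
    by_cases hj : j ≤ V
    · have hjr : (j : ℝ) ≤ V := by exact_mod_cast hj
      obtain ⟨w₀, hw₀⟩ := window (H := H) hK1 haK hbK hcK hh hQ hXs
        (by
          have h1 : (Q : ℝ) * 1 ≤ Q * K := mul_le_mul_of_nonneg_left hKr (by linarith)
          linarith) (j := j) (T := T)
        (by
          have h1 : 4 * (K : ℝ) * Q * j ≤ 4 * K * Q * V := mul_le_mul_of_nonneg_left hjr h4KQ.le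
          linarith) hTH hQT
      refine ⟨w₀, fun _ _ n hn => ?_⟩
      obtain ⟨g1, g2, g3, g4, g5⟩ := hw₀ n hn
      have hpos : 0 ≤ FZ h a b c (1 + Q * (w₀ + n)) (Q * j) := by
        have : (0 : ℝ) ≤ (FZ h a b c (1 + Q * (w₀ + n)) (Q * j) : ℝ) := hX0.le.trans g4
        exact_mod_cast this
      obtain ⟨m, hm⟩ := Int.eq_ofNat_of_zero_le hpos
      rw [hm] at g4 g5 ⊢
      rw [Int.cast_natCast] at g4 g5
      exact ⟨g1, g2, Nat.le_floor g3, by exact_mod_cast Nat.ceil_le.2 g4,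
        by exact_mod_cast Nat.le_floor g5⟩
    · exact ⟨0, fun _ h => absurd h hj⟩
  choose w₀ hw₀ using hwin
  -- the number of prime factors
  have hN2 : ((⌊X + H⌋₊ : ℕ) : ℝ) ≤ X + H := Nat.floor_le (by positivity)
  have hω : ∀ d : ℕ, h * d ≤ ⌊X + H⌋₊ → Squarefree d → (∀ p : ℕ, p.Prime → p ∣ d → Y < p) →
      d.primeFactors.card ≤ R := by
    intro d hd hsq' hp
    have hd0 : d ≠ 0 := hsq'.ne_zero
    have h1 : x ^ d.primeFactors.card ≤ ((∏ p ∈ d.primeFactors, p : ℕ) : ℝ) := by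
      push_cast
      rw [← prod_const]
      apply Finset.prod_le_prod
      · intro _ _; exact hx0.le
      · intro p hpd
        rw [Nat.mem_primeFactors] at hpd
        have := hp p hpd.1 hpd.2.1
        have h3 : (Y : ℝ) + 1 ≤ p := by exact_mod_cast this
        linarith
    have h2 : ∏ p ∈ d.primeFactors, p ≤ d :=
      Nat.le_of_dvd (Nat.pos_of_ne_zero hd0) (Nat.prod_primeFactors_dvd d)
    have h3 : d ≤ h * d := Nat.le_mul_of_pos_left _ hh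
    have h4 : ((∏ p ∈ d.primeFactors, p : ℕ) : ℝ) ≤ ((⌊X + H⌋₊ : ℕ) : ℝ) := by
      exact_mod_cast (h2.trans h3).trans hd
    have h5 : x ^ d.primeFactors.card ≤ X ^ (2 : ℝ) := by
      refine (h1.trans (h4.trans hN2)).trans ?_
      rw [Real.rpow_two, sq]
      have h6 : 2 * X ≤ X * X := mul_le_mul_of_nonneg_right hX2 hX0.le
      linarith
    have h6 : δ * (d.primeFactors.card : ℝ) ≤ 2 := by
      rw [hx, ← Real.rpow_natCast, ← Real.rpow_mul hX0.le] at h5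
      exact (Real.rpow_le_rpow_left_iff (by linarith)).1 h5
    have h7 : (d.primeFactors.card : ℝ) ≤ 2 / δ := by
      rw [le_div_iff₀ hδ0]; linarith
    exact_mod_cast h7.trans hRδ
  have hVX : (V : ℝ) ≤ X := by
    have h1 : z ^ 2 ≤ z ^ 12 := pow_le_pow_right₀ hz1 (by norm_num)
    rw [hz12] at h1
    linarith
  have hcomb := combW hh hab (K := K) hK1
    (by
      intro e he
      simp only [Finset.mem_insert, Finset.mem_singleton] at he
      rcases he with rfl | rfl | rfl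
      · exact ⟨ha0, haK⟩
      · exact ⟨hb0, hbK⟩
      · exact ⟨hc0, hcK⟩)
    (Q := Q) (W := W) (Y := Y) (T := T) (V := V) (P₁ := P₁) (U := U) (N₁ := ⌈X⌉₊)
    (N₂ := ⌊X + H⌋₊) (R := R) (w := ⌊2 * L⌋₊) w₀
    PP hPPs hQ (by omega) (by omega) hYP hw₀ hPP
    (E := (T : ℝ) / 2 * (κ / 2 ^ J) ^ 12 - ((2 : ℝ) ^ 2 ^ J) ^ (c₀ * 6))
    (fun j => hS _ Q Y J T j (w₀ j) Finset.card_le_three hQ12 hJ1)
    (by
      intro j hj hjV
      apply Nat.le_floor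
      apply omega_le hj
      rw [hL]
      apply Real.log_le_log (by exact_mod_cast hj)
      exact le_trans (by exact_mod_cast hjV) hVX)
    hω
  set St : Finset ℕ := (range (⌊X + H⌋₊ + 1)).filter (fun d => ⌈X⌉₊ ≤ h * d ∧ h * d ≤ ⌊X + H⌋₊ ∧
        PP d ∧ ∀ p : ℕ, p.Prime → p ∣ d → Y < p) with hSt
  have hElow : (T : ℝ) * (c₂ / L ^ 12) - T / x ≤
      (T : ℝ) / 2 * (κ / 2 ^ J) ^ 12 - ((2 : ℝ) ^ 2 ^ J) ^ (c₀ * 6) := by
    have h1 : κ / (2 * L) ≤ κ / 2 ^ J := div_le_div_of_nonneg_left hκ.le (by positivity) hJL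
    have h2 := pow_le_pow_left₀ (by positivity) h1 12
    have h3 : (κ / (2 * L)) ^ 12 = 2 * (c₂ / L ^ 12) := by
      rw [hc₂, div_pow, mul_pow]
      field_simp
      norm_num
    rw [h3] at h2
    have h4 : (T : ℝ) * (c₂ / L ^ 12) ≤ (T : ℝ) / 2 * (κ / 2 ^ J) ^ 12 := by
      calc (T : ℝ) * (c₂ / L ^ 12) = T / 2 * (2 * (c₂ / L ^ 12)) := by ring
        _ ≤ (T : ℝ) / 2 * (κ / 2 ^ J) ^ 12 := mul_le_mul_of_nonneg_left h2 (by positivity)
    have h5 : ((2 : ℝ) ^ 2 ^ J) ^ (c₀ * 6) ≤ T / x := by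
      rw [le_div_iff₀ hx0]
      calc ((2 : ℝ) ^ 2 ^ J) ^ (c₀ * 6) * x ≤ (x ^ 2) ^ (c₀ * 6) * x :=
            mul_le_mul_of_nonneg_right (pow_le_pow_left₀ (by positivity) hJx _) hx0.le
        _ = x ^ (12 * c₀ + 1) := by rw [← pow_mul, ← pow_succ]; congr 1; ring
        _ ≤ T := (hxi _ (by omega)).trans hTG
    linarith
  have hcomb' := numW (s := s) (t := (T : ℝ)) (x := x) (ℓ := L) (c₂ := c₂) (K := K) (Q := Q)
    (V := V) (E := (T : ℝ) / 2 * (κ / 2 ^ J) ^ 12 - ((2 : ℝ) ^ 2 ^ J) ^ (c₀ * 6)) (Y := Y)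
    (w := ((⌊2 * L⌋₊ : ℕ) : ℝ)) (P₁ := P₁) (U := U)
    (bad1 := V * (((⌊2 * L⌋₊ : ℕ) : ℝ) * (T / Y + 1))) (bad2 := 3 * (V * (3 * (T / Y + P₁))))
    (bad3 := 3 * (3 * ((U : ℝ) ^ 2 / P₁ + 2 * U))) (S := St.card)
    (r := r) (by linarith) hT0 hx1 hL1 hc₂0 hKr hQr hxT (Nat.cast_nonneg V) hVs hV2
    (by linarith) (Nat.floor_le (by positivity)) (Nat.cast_nonneg _) hP1 hP2 (Nat.cast_nonneg _)
    hU1 hsq hElow rfl rfl rfl
    (by
      refine hcomb.trans (le_of_eq ?_)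
      rw [hr]
      push_cast
      ring) e1
  -- inclusion
  have hsub : (St : Set ℕ) ⊆ SW h R X H PP := by
    intro d hd
    rw [mem_coe, hSt, mem_filter] at hd
    obtain ⟨-, hd1, hd2, hd3, hd4⟩ := hd
    refine ⟨Nat.ceil_le.1 hd1, ?_, hd3, hω d hd2 (hPPs d hd3) hd4, fun p hp hpd => ?_⟩
    · exact (Nat.cast_le.2 hd2).trans hN2
    · have h1 := hd4 p hp hpd
      have h2 : (Y : ℝ) + 1 ≤ p := by exact_mod_cast h1
      have h3 : X ^ (1 / (R : ℝ)) ≤ x := by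
        rw [hx]
        apply Real.rpow_le_rpow_of_exponent_le hX1
        rw [div_le_iff₀ hR0]
        rw [div_le_iff₀ hδ0] at hRδ
        linarith
      linarith
  have hfin : (SW h R X H PP).Finite := by
    refine (Set.finite_Iic ⌊X + H⌋₊).subset ?_
    rintro d ⟨-, hd, -⟩
    exact (Nat.le_mul_of_pos_left d hh).trans (Nat.le_floor hd)
  have hcard : (St.card : ℝ) ≤ (((SW h R X H PP).ncard : ℕ) : ℝ) := by
    rw [Nat.cast_le, ← Set.ncard_coe_finset]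
    exact Set.ncard_le_ncard hsub hfin
  refine le_trans ?_ hcard
  -- the end
  have hS0 : (0 : ℝ) ≤ St.card := Nat.cast_nonneg _
  have hXG : X ^ (θ - 2 / 3) = G * z ^ 3 := by
    rw [hG, hz, ← Real.rpow_natCast, ← Real.rpow_mul hX0.le, ← Real.rpow_add hX0]
    congr 1
    push_cast
    ring
  rw [div_le_iff₀ (by positivity), hXG]
  have hlast : G * z ^ 3 * c₂ ≤ 1572864 * (h : ℝ) ^ 2 * Q ^ 2 * K * r * (L ^ 12 * St.card) := by
    have h1 : (z * G) * z ^ 2 ≤ (49152 * h * Q * T) * (h * s) := by gcongr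
    have h2 := mul_le_mul_of_nonneg_right h1 hc₂0.le
    have h3 := mul_le_mul_of_nonneg_left hcomb' (by positivity : 0 ≤ 49152 * (h : ℝ) ^ 2 * Q)
    calc G * z ^ 3 * c₂ = (z * G) * z ^ 2 * c₂ := by ring
      _ ≤ (49152 * h * Q * T) * (h * s) * c₂ := h2
      _ = 49152 * (h : ℝ) ^ 2 * Q * (s * T * c₂) := by ring
      _ ≤ 49152 * (h : ℝ) ^ 2 * Q * (32 * K * Q * L ^ 12 * (r * St.card)) := h3
      _ = 1572864 * (h : ℝ) ^ 2 * Q ^ 2 * K * r * (L ^ 12 * St.card) := by ring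
  have hLS : 0 ≤ L ^ 12 * (St.card : ℝ) := mul_nonneg (pow_nonneg hL0.le 12) hS0
  have hDL : D₂ ≤ L := by linarith only [e2]
  have h1 : D₂ * (L ^ 12 * St.card) ≤ L * (L ^ 12 * St.card) :=
    mul_le_mul_of_nonneg_right hDL hLS
  have h2 : G * z ^ 3 ≤ D₂ * (L ^ 12 * St.card) := by
    rw [hD₂, div_mul_eq_mul_div, le_div_iff₀ hc₂0]
    exact hlast
  calc G * z ^ 3 ≤ L * (L ^ 12 * St.card) := h2.trans h1
    _ = St.card * L ^ 13 := by ring

end Pool.Agent.TH646.RT.Win
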